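import Pool.Agent.Helper24.GF.Stm
import Pool.Agent.Helper15.MD.BUR

/-! module BRW (helper5): Burnside's theorem over `W(k)` -/

set_option autoImplicit false

namespace Pool.Agent.Helper24.GF.BRW

open IsLocalRing MZ Pool.Agent.Helper15.MD

theorem main : S_BRW := by
  classical
  intro k _ _ _ G _ n ρbar hn hirr K hK
  let W := WittVector 2 k
  let cc : WittVector 2 k →+* k := WittVector.constantCoeff
  obtain ⟨_, w2, _, w4⟩ := Pool.Agent.W505.MZ.ExW.main 2 k
  have hbur := BUR.main k G n ρbar hn hirr
  set N : Submodule (WittVector 2 k) (Matrix (Fin n) (Fin n) (WittVector 2 k)) :=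
    Submodule.span (WittVector 2 k)
      (Set.range fun g => (K g : Matrix (Fin n) (Fin n) (WittVector 2 k))) with hN
  -- lifts of the elements of the span
  have hlift : ∀ Z : Matrix (Fin n) (Fin n) k, ∃ Y ∈ N, Y.map cc = Z := by
    intro Z
    have hZ : Z ∈ Submodule.span k
        (Set.range fun g => (ρbar g : Matrix (Fin n) (Fin n) k)) := by
      rw [hbur]
      trivial
    induction hZ using Submodule.span_induction with
    | mem x hx =>
      obtain ⟨g, rfl⟩ := hx
      refine ⟨K g, Submodule.subset_span ⟨g, rfl⟩, ?_⟩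
      have h := congrArg (fun u : GL (Fin n) k => (u : Matrix (Fin n) (Fin n) k)) (hK g)
      exact h
    | zero => exact ⟨0, N.zero_mem, by ext i j; simp⟩
    | add x y _ _ hx hy =>
      obtain ⟨a, ha, rfl⟩ := hx
      obtain ⟨b, hb, rfl⟩ := hy
      exact ⟨a + b, N.add_mem ha hb, by ext i j; simp⟩
    | smul c x _ hx =>
      obtain ⟨a, ha, rfl⟩ := hx
      refine ⟨WittVector.teichmuller 2 c • a, N.smul_mem _ ha, ?_⟩
      ext i j
      have h : cc (WittVector.teichmuller 2 c) = c := WittVector.teichmuller_coeff_zero 2 c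
      simp [h]
  have hfg : (⊤ : Submodule (WittVector 2 k) (Matrix (Fin n) (Fin n) (WittVector 2 k))).FG :=
    Module.Finite.fg_top
  refine top_unique (Submodule.le_of_le_smul_of_le_jacobson_bot
    (I := maximalIdeal (WittVector 2 k)) hfg ?_ ?_)
  · rw [IsLocalRing.jacobson_eq_maximalIdeal ⊥ bot_ne_top]
  · intro X _
    obtain ⟨Y, hY, hXY⟩ := hlift (X.map cc)
    refine Submodule.mem_sup.2 ⟨Y, hY, X - Y, ?_, by abel⟩
    have hent : ∀ i j, (X - Y) i j ∈ maximalIdeal (WittVector 2 k) := by
      intro i j
      rw [w4]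
      have h := congrFun (congrFun hXY i) j
      have h2 : cc (Y i j) = cc (X i j) := h
      have h3 : cc ((X - Y) i j) = 0 := by
        rw [Matrix.sub_apply, map_sub, h2, sub_self]
      exact h3
    rw [Matrix.matrix_eq_sum_single (X - Y)]
    refine Submodule.sum_mem _ fun i _ => Submodule.sum_mem _ fun j _ => ?_
    have h : Matrix.single i j ((X - Y) i j) =
        (X - Y) i j • Matrix.single i j (1 : WittVector 2 k) := by
      rw [Matrix.smul_single, smul_eq_mul, mul_one]
    rw [h]
    exact Submodule.smul_mem_smul (hent i j) trivial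

end Pool.Agent.Helper24.GF.BRW
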