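import Pool.Agent.Helper24.GF.Stm
import Pool.Agent.Helper15.MD.EXT

/-!
# Module EXT of project GF: from a homomorphism `ψ : P → GL_n(A)` to a representation of the big group

Variant of `Pool/Agent/Helper15/MD/EXT.lean` with the homomorphism `K` in place of the constant
matrices (helper17).
-/

set_option autoImplicit false

namespace Pool.Agent.Helper24.GF.EXT

open Matrix IsLocalRing MZ Pool.Agent.Helper15.MD Pool.Agent.Helper24.GF

/-- conjugations by matrices which differ by a scalar agree -/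
lemma conj_scalar {R : Type} [CommRing R] {n : ℕ} (M N : GL (Fin n) R) (a : R)
    (h : ((M * N⁻¹ : GL (Fin n) R) : Matrix (Fin n) (Fin n) R) =
      a • (1 : Matrix (Fin n) (Fin n) R))
    (Y : GL (Fin n) R) : M * Y * M⁻¹ = N * Y * N⁻¹ := by
  have hc : M * N⁻¹ * (N * Y * N⁻¹) = (N * Y * N⁻¹) * (M * N⁻¹) := by
    refine Units.ext ?_
    rw [Units.val_mul (M * N⁻¹), Units.val_mul (N * Y * N⁻¹), h,
      Matrix.smul_mul, Matrix.mul_smul, Matrix.one_mul, Matrix.mul_one]
  calc M * Y * M⁻¹
      = M * N⁻¹ * (N * Y * N⁻¹) * (M * N⁻¹)⁻¹ := by group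
    _ = N * Y * N⁻¹ := by rw [hc]; group

/-- The extension of `ψ` to the big group. -/
theorem main : Pool.Agent.Helper24.GF.S_EXT := by
  intro P G 𝒢 V ι _ _ _ _ _ _ _ _ _ D k _ _ n A ρbar hρo K hK1 hK2 hK3 t u ht hu ψ hψ1 hψo hψc hψσ
  classical
  have hj := D.hj
  -- equivariance
  have hconjmem : ∀ (b : G) (q : P), b * D.j q * b⁻¹ ∈ D.j.range := fun b q =>
    D.hjn.conj_mem _ ⟨q, rfl⟩ b
  have hequiv : ∀ (g : 𝒢), D.res g ∈ D.A → ∀ q q' : P, D.j q' = D.res g * D.j q * (D.res g)⁻¹ →
      ψ q' = K g * ψ q * (K g)⁻¹ := by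
    intro g hg
    -- the conjugation automorphism of P
    let b := D.res g
    let cb : P → P := fun q => (hconjmem b q).choose
    have hcb : ∀ q, D.j (cb q) = b * D.j q * b⁻¹ := fun q => (hconjmem b q).choose_spec
    let cbH : P →* P := MonoidHom.mk' cb (fun x y => by
      apply hj
      rw [map_mul, hcb, hcb, hcb, map_mul]
      group)
    have hcbc : Continuous cbH := by
      have hemb : Topology.IsOpenEmbedding D.j :=
        Topology.IsOpenEmbedding.of_continuous_injective_isOpenMap D.hjc hj D.hjo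
      rw [hemb.isInducing.continuous_iff]
      have : (D.j ∘ cbH) = fun q => b * D.j q * b⁻¹ := by
        funext q
        exact hcb q
      rw [this]
      have := D.hjc
      fun_prop
    have h1 : ψ.comp cbH = (MulAut.conj (K g)).toMonoidHom.comp ψ := by
      refine ext_hom_ext_gen A D.c D.σ D.gen _ _ ?_ ?_ ?_ ?_
      · intro m
        have := (hψo m).preimage hcbc
        exact this
      · intro m
        convert hψo m using 1
        ext q
        have e1 := ext_mem_congr A m (ψ q)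
        have e2 := ext_mem_congr A m (((MulAut.conj (K g)).toMonoidHom.comp ψ) q)
        rw [Set.mem_ofPred_eq, Set.mem_ofPred_eq, ← e1, ← e2]
        have hn : (extCongr A n m).Normal := MonoidHom.normal_ker _
        constructor
        · intro h
          have := hn.conj_mem _ h (K g)⁻¹
          simpa [MulAut.conj_apply, mul_assoc] using this
        · intro h
          have := hn.conj_mem _ h (K g)
          simpa [MulAut.conj_apply, mul_assoc] using this
      · intro i
        have : cb (D.c i) = D.c (D.π b i) := by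
          apply hj
          rw [hcb, D.hπc b hg i]
        show ψ (cb (D.c i)) = K g * ψ (D.c i) * (K g)⁻¹
        rw [this, hψc, hψc, ht g hg i]
      · have : cb D.σ = D.σ := by
          apply hj
          rw [hcb, D.hσ b hg]
        show ψ (cb D.σ) = K g * ψ D.σ * (K g)⁻¹
        rw [this, hψσ, hu g]
    intro q q' hq
    have : q' = cb q := hj (by rw [hq, hcb])
    rw [this]
    exact DFunLike.congr_fun h1 q
  -- decomposition
  have hdec : ∀ g : 𝒢, ∃ q : P, ∃ a ∈ D.A, D.res g = D.j q * a := by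
    intro g
    obtain ⟨a, ha, x, ⟨q, rfl⟩, h⟩ := D.hA' (D.res g)
    exact ⟨q, a, ha, h⟩
  choose Q α hα hQ using hdec
  have huniq : ∀ (q q' : P) (a a' : G), a ∈ D.A → a' ∈ D.A → D.j q * a = D.j q' * a' →
      q = q' ∧ a = a' := by
    intro q q' a a' ha ha' h
    have h1 : a * a'⁻¹ ∈ D.A ⊓ D.j.range := by
      refine ⟨D.A.mul_mem ha (D.A.inv_mem ha'), q⁻¹ * q', ?_⟩
      rw [map_mul, map_inv, inv_mul_eq_iff_eq_mul, ← mul_assoc, h, mul_inv_cancel_right]
    rw [D.hA, Subgroup.mem_bot, mul_inv_eq_one] at h1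
    subst h1
    exact ⟨hj (mul_right_cancel h), rfl⟩
  have hmul : ∀ g g' : 𝒢, ψ (Q (g * g')) * K (g * g') =
      (ψ (Q g) * K g) * (ψ (Q g') * K g') := by
    intro g g'
    -- choose a lift of α g
    obtain ⟨h, hh⟩ := D.hsurj (α g)
    obtain ⟨q₁, hq₁⟩ := hconjmem (α g) (Q g')
    have e1 : D.j (Q (g * g')) * α (g * g') = D.j (Q g * q₁) * (α g * α g') := by
      rw [← hQ, map_mul, hQ, hQ, map_mul, hq₁]
      group
    obtain ⟨e2, -⟩ := huniq _ _ _ _ (hα _) (D.A.mul_mem (hα g) (hα g')) e1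
    have e3 : ψ q₁ = K h * ψ (Q g') * (K h)⁻¹ :=
      hequiv h (by rw [hh]; exact hα g) (Q g') q₁ (by rw [hq₁, hh])
    have hmem : D.res (g * h⁻¹) ∈ D.j.range :=
      ⟨Q g, by rw [map_mul, map_inv, hQ, hh]; group⟩
    obtain ⟨a, ha⟩ := hK3 _ hmem
    have e4 : K g * ψ (Q g') * (K g)⁻¹ =
        K h * ψ (Q g') * (K h)⁻¹ := by
      refine conj_scalar (K g) (K h) a ?_ _
      rw [← map_inv, ← map_mul]
      exact ha
    rw [e2, map_mul, e3, ← e4, map_mul]
    group
  let ρ : 𝒢 →* GL (Fin n) A.A :=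
    MonoidHom.mk' (fun g => ψ (Q g) * K g) hmul
  refine ⟨ρ, ⟨?_, ?_⟩, ?_⟩
  · intro g
    show Matrix.GeneralLinearGroup.map A.res (ψ (Q g) * K g) = _
    rw [map_mul, hψ1, hK1, one_mul]
  · intro m
    -- subgroup containing an open subgroup
    have h0 : {g : 𝒢 | ∀ a b : Fin n,
        ((ρ g : Matrix (Fin n) (Fin n) A.A) - 1) a b ∈ maximalIdeal A.A ^ m} =
        (((extCongr A n m).comap ρ : Subgroup 𝒢) : Set 𝒢) := by
      ext g
      exact (ext_mem_congr A m (ρ g)).symm
    rw [h0]
    let U : Subgroup P := (extCongr A n m).comap ψ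
    have hU : IsOpen (U : Set P) := by
      convert hψo m using 1
      ext q
      exact ext_mem_congr A m (ψ q)
    let W : Subgroup 𝒢 := (U.map D.j).comap D.res ⊓ ρbar.ker
    have hW : IsOpen (W : Set 𝒢) := by
      rw [Subgroup.coe_inf]
      refine IsOpen.inter ?_ hρo
      have : IsOpen ((U.map D.j : Subgroup G) : Set G) := by
        rw [Subgroup.coe_map]
        exact D.hjo _ hU
      exact this.preimage D.hres
    refine Subgroup.isOpen_mono (H₁ := W) ?_ hW
    rintro g ⟨⟨q, hq, hq'⟩, hg2⟩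
    have e1 : D.j (Q g) * α g = D.j q * 1 := by rw [← hQ, mul_one, hq']
    obtain ⟨e2, -⟩ := huniq _ _ _ _ (hα g) D.A.one_mem e1
    show ρ g ∈ extCongr A n m
    have : ρ g = ψ q := by
      show ψ (Q g) * K g = _
      rw [e2, hK2 g (MonoidHom.mem_ker.mp hg2), mul_one]
    rw [this]
    exact hq
  · intro g q a ha h
    have e1 : D.j (Q g) * α g = D.j q * a := by rw [← hQ, h]
    obtain ⟨e2, -⟩ := huniq _ _ _ _ (hα g) ha e1
    show ψ (Q g) * K g = _
    rw [e2]

end Pool.Agent.Helper24.GF.EXT
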