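import Pool.Agent.Helper24.GF.Lay2
import Pool.Agent.Helper24.BC.Ext

/-!
# Base change to all extensions of a layer, of any signature, with the generic fibre
-/

set_option autoImplicit false
set_option linter.style.haveILetI false
set_option linter.unusedSectionVars false

namespace Pool.Agent.Helper24.GF

open NumberField IsDedekindDomain MZ Pool.Agent.Helper24.BC Pool.Agent.Helper24.BC.X

section fields

variable {F Ω F' : Type} [Field F] [NumberField F] [Field Ω] [Algebra F Ω] [IsAlgClosure F Ω]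
  [Field F'] [NumberField F'] [Algebra F F'] [Algebra F' Ω] [IsScalarTower F F' Ω]

theorem transfer2 (hFIN : S_FIN) (hINT : S_INT)
    (S : Set (HeightOneSpectrum (𝓞 F))) (S' : Set (HeightOneSpectrum (𝓞 F')))
    (hSf : S.Finite) (hSf' : S'.Finite)
    (h2 : ∀ v : HeightOneSpectrum (𝓞 F), (2 : 𝓞 F) ∈ v.asIdeal → v ∈ S)
    (h2' : ∀ v : HeightOneSpectrum (𝓞 F'), (2 : 𝓞 F') ∈ v.asIdeal → v ∈ S')
    (hS : Above S S')
    {k : Type} [Field k] [Finite k] [CharP k 2]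
    (ρbar : GFS Ω S →* GL (Fin 3) k)
    (h3 : ∀ φ : GFS Ω S' →* GFS Ω S, IsRestr S S' φ → ∀ g, ∃ h, ρbar (φ h) = ρbar g)
    (ho : IsOpen (ρbar.ker : Set (GFS Ω S)))
    (hirr : AbsIrred ρbar) (h27 : ∀ g, ρbar g ^ 27 = 1) (N : WithBot ℕ∞)
    (hN : ∀ (R : CNL 2 k) (ρu : GFS Ω S →* GL (Fin 3) R.A), IsUniversal ρbar R ρu → Bd N R.A) :
    ∃ (φ : GFS Ω S' →* GFS Ω S) (w : InfinitePlace F' →
        InfinitePlace (FSmax S' : IntermediateField F' Ω)), IsRestr S S' φ ∧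
      IsDatum F' Ω S' 2 k 3 (ρbar.comp φ) w ∧
      delta S' (ρbar.comp φ) w = 1 + 9 * InfinitePlace.nrComplexPlaces F' ∧
      (∃ (R : CNL 2 k) (ρu : GFS Ω S' →* GL (Fin 3) R.A), IsUniversal (ρbar.comp φ) R ρu) ∧
      ∀ (R : CNL 2 k) (ρu : GFS Ω S' →* GL (Fin 3) R.A), IsUniversal (ρbar.comp φ) R ρu →
        Bd N R.A := by
  haveI : IsAlgClosure F' Ω := ⟨IsAlgClosure.isAlgClosed F, by
    haveI : Algebra.IsAlgebraic F Ω := IsAlgClosure.isAlgebraic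
    exact Algebra.IsAlgebraic.tower_top (K := F) F'⟩
  haveI : Fact (Nat.Prime 2) := ⟨Nat.prime_two⟩
  obtain ⟨φ, hc, hφ, hfi, hd⟩ := exists_isRestr (Ω := Ω) S S' hS
  obtain ⟨w, hw⟩ := exists_w' (FSmax S' : IntermediateField F' Ω)
  have hirr' : AbsIrred (ρbar.comp φ) := absIrred_comp φ ρbar hirr (h3 φ hφ)
  have ho' : IsOpen ((ρbar.comp φ).ker : Set (GFS Ω S')) := ho.preimage hc
  refine ⟨φ, w, hφ, ⟨by norm_num, by norm_num, hSf', fun v hv => h2' v (by exact_mod_cast hv),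
    ho', hirr', hw⟩, delta_eq S' k (ρbar.comp φ) (inv27 _ fun g => h27 (φ g)) w,
    MZEX.stmEx F' Ω S' hSf' h2' k 3 (by norm_num) (ρbar.comp φ) ho' hirr', ?_⟩
  intro R' ρu' hu'
  obtain ⟨R, ρu, hu⟩ := MZEX.stmEx F Ω S hSf h2 k 3 (by norm_num) ρbar ho hirr
  exact ⟨(hN R ρu hu).1.trans
      (dim_restrict (by norm_num) φ hc hfi ρbar hirr' R ρu hu R' ρu' hu'),
    (hN R ρu hu).2.trans
      (away_restrict hFIN hINT (by norm_num) φ hc hfi ρbar hirr' R ρu hu R' ρu' hu')⟩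

end fields

/-- **All extensions of a layer.** -/
theorem overF2 (hFIN : S_FIN) (hINT : S_INT)
    {F₀ : Type} [Field F₀] [NumberField F₀] [Algebra F₀ Om] [IsAlgClosure F₀ Om]
    [Algebra F5 F₀]
    {k : Type} [Field k] [Finite k] [CharP k 2] (ρ : GFS Om (abv F₀ S30) →* GL (Fin 3) k)
    (ho : IsOpen (ρ.ker : Set (GFS Om (abv F₀ S30)))) (hirr : AbsIrred ρ)
    (h27 : ∀ g, ρ g ^ 27 = 1) (D : WithBot ℕ∞)
    (hN : ∀ (R : CNL 2 k) (ρu : GFS Om (abv F₀ S30) →* GL (Fin 3) R.A), IsUniversal ρ R ρu →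
      Bd D R.A)
    {F : Type} [Field F] [NumberField F] [Algebra F₀ F] [Algebra F Om] [IsScalarTower F₀ F Om]
    (hT : ∀ M : Subgroup ρ.range, M.index = 3 → IsEmpty (NO ρ M →+* F))
    (S' : Set (HeightOneSpectrum (𝓞 F))) (hSf : S'.Finite)
    (h30 : ∀ v : HeightOneSpectrum (𝓞 F), (30 : 𝓞 F) ∈ v.asIdeal → v ∈ S') :
    ∃ (ρ' : GFS Om S' →* GL (Fin 3) k) (w : InfinitePlace F →
        InfinitePlace (FSmax S' : IntermediateField F Om)),
      IsDatum F Om S' 2 k 3 ρ' w ∧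
      delta S' ρ' w = 1 + 9 * InfinitePlace.nrComplexPlaces F ∧
      (∃ (R : CNL 2 k) (ρu : GFS Om S' →* GL (Fin 3) R.A), IsUniversal ρ' R ρu) ∧
      ∀ (R : CNL 2 k) (ρu : GFS Om S' →* GL (Fin 3) R.A), IsUniversal ρ' R ρu → Bd D R.A := by
  have hS : Above (abv F₀ S30) S' := above30 S' h30
  obtain ⟨φ, w, -, h1, h2, h3, h4⟩ := transfer2 hFIN hINT (abv F₀ S30) S'
    (Pool.Agent.Helper15.MD.FLD.finite_above F5 F₀ S30 S30_finite) hSf
    (two_of_30 _ fun v hv => (abv_iff v).2 hv)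
    (two_of_30 S' h30) hS ρ (full_image ρ h27 hT S' hS) ho hirr h27 D hN
  exact ⟨ρ.comp φ, w, h1, h2, h3, h4⟩

end Pool.Agent.Helper24.GF
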