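import Pool.Agent.Helper24.GF.Stm

/-! # Finite algebras over complete local rings (helper93) -/

set_option autoImplicit false

open IsLocalRing

namespace Pool.Agent.Helper24.GF.FIN

theorem mem_smul_top {A ι : Type} [CommRing A] [Finite ι] {I : Ideal A} {x : ι → A}
    (h : ∀ i, x i ∈ I) : x ∈ (I • ⊤ : Submodule A (ι → A)) := by
  classical
  have : Fintype ι := Fintype.ofFinite ι
  have h1 : x = ∑ i, x i • (Pi.single i 1 : ι → A) := by
    funext j
    rw [Finset.sum_apply, Finset.sum_eq_single j]
    · simp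
    · intro i _ hij
      simp [hij.symm]
    · intro hj
      exact absurd (Finset.mem_univ j) hj
  rw [h1]
  exact Submodule.sum_mem _ fun i _ => Submodule.smul_mem_smul (h i) trivial

theorem apply_mem {A ι : Type} [CommRing A] {I : Ideal A} {x : ι → A}
    (h : x ∈ (I • ⊤ : Submodule A (ι → A))) (i : ι) : x i ∈ I := by
  have h1 : (I • ⊤ : Submodule A (ι → A)) ≤ Submodule.comap (LinearMap.proj i) I := by
    rw [Submodule.smul_le]
    intro a ha y _
    show a * y i ∈ I
    exact Ideal.mul_mem_right _ _ ha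
  exact h1 h

theorem prec {A ι : Type} [CommRing A] [Finite ι] (I : Ideal A) [IsPrecomplete I A] :
    IsPrecomplete I (ι → A) := by
  refine ⟨fun f hf => ?_⟩
  have h1 : ∀ i : ι, ∃ L : A, ∀ n, f n i ≡ L [SMOD (I ^ n • ⊤ : Submodule A A)] := by
    intro i
    refine IsPrecomplete.prec inferInstance (f := fun n => f n i) ?_
    intro m n hmn
    have h2 := hf hmn
    rw [SModEq.sub_mem] at h2 ⊢
    rw [smul_eq_mul, Ideal.mul_top]
    exact apply_mem h2 i
  choose L hL using h1
  refine ⟨L, fun n => ?_⟩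
  rw [SModEq.sub_mem]
  refine mem_smul_top fun i => ?_
  have h2 := hL i n
  rw [SModEq.sub_mem, smul_eq_mul, Ideal.mul_top] at h2
  exact h2

theorem main : S_FIN := by
  classical
  intro k _ _ _ A B f hf hP
  let _ : Algebra A.A B.A := f.toAlgebra
  have hJ : Ideal.map f (maximalIdeal A.A) ≤ maximalIdeal B.A := Ideal.map_le_iff_le_comap.2 hf
  have hrad : maximalIdeal B.A ≤ (Ideal.map f (maximalIdeal A.A)).radical := by
    rw [Ideal.radical_eq_sInf]
    refine le_sInf ?_
    rintro P ⟨h1, h2⟩
    rw [hP P h2 fun x hx => h1 (Ideal.mem_map_of_mem f hx)]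
  obtain ⟨r, hr⟩ := Ideal.exists_pow_le_of_le_radical_of_fg hrad (IsNoetherian.noetherian _)
  have h1 : Finite (B.A ⧸ maximalIdeal B.A) := by
    have h2 : (RingHom.ker B.res).IsMaximal := RingHom.ker_isMaximal_of_surjective B.res B.res_surj
    rw [← IsLocalRing.eq_maximalIdeal h2]
    exact Finite.of_equiv k (RingHom.quotientKerEquivOfSurjective B.res_surj).symm.toEquiv
  have h2 : Finite (B.A ⧸ maximalIdeal B.A ^ r) :=
    Ideal.finite_quotient_pow (IsNoetherian.noetherian _) r
  have h3 : Finite (B.A ⧸ Ideal.map f (maximalIdeal A.A)) :=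
    Finite.of_surjective (Ideal.Quotient.factor hr) (Ideal.Quotient.factor_surjective hr)
  have : Fintype (B.A ⧸ Ideal.map f (maximalIdeal A.A)) := Fintype.ofFinite _
  have hp : IsPrecomplete (maximalIdeal A.A) ((B.A ⧸ Ideal.map f (maximalIdeal A.A)) → A.A) :=
    prec _
  have hh : IsHausdorff (maximalIdeal A.A) B.A := by
    have h4 : IsHausdorff (Ideal.map (algebraMap A.A B.A) (maximalIdeal A.A)) B.A :=
      IsHausdorff.of_isLocalRing _ _ (ne_top_of_le_ne_top (Ideal.IsPrime.ne_top inferInstance) hJ)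
    exact IsHausdorff.map_algebraMap_iff.1 h4
  let F : ((B.A ⧸ Ideal.map f (maximalIdeal A.A)) → A.A) →ₗ[A.A] B.A :=
    Fintype.linearCombination A.A (fun q => Quotient.out q)
  have hF : Function.Surjective F := by
    refine surjective_of_mkQ_comp_surjective (I := maximalIdeal A.A) ?_
    intro y
    obtain ⟨b, rfl⟩ := Submodule.mkQ_surjective _ y
    refine ⟨Pi.single (Ideal.Quotient.mk _ b) 1, ?_⟩
    rw [LinearMap.comp_apply]
    have h4 : F (Pi.single (Ideal.Quotient.mk _ b) 1) =
        Quotient.out (Ideal.Quotient.mk (Ideal.map f (maximalIdeal A.A)) b) := by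
      show Fintype.linearCombination A.A _ _ = _
      rw [Fintype.linearCombination_apply_single, one_smul]
    rw [h4]
    show Submodule.Quotient.mk _ = Submodule.Quotient.mk _
    rw [Submodule.Quotient.eq, Ideal.smul_top_eq_map]
    show _ ∈ Ideal.map f (maximalIdeal A.A)
    rw [← Ideal.Quotient.eq]
    exact Quotient.out_eq _
  exact Module.Finite.of_surjective F hF

end Pool.Agent.Helper24.GF.FIN
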