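import Pool.Agent.Helper24.GF.Stm

/-! # Integral extensions and the dimension of localizations (helper93) -/

set_option autoImplicit false

namespace Pool.Agent.Helper24.GF.INT

theorem main : S_INT := by
  intro A B _ _ f a b hab hf
  subst hab
  have h := RingHom.localization_away_map_finite A B (Localization.Away a)
    (Localization.Away (f a)) f a hf
  let g := IsLocalization.Away.map (Localization.Away a) (Localization.Away (f a)) f a
  let _ : Algebra (Localization.Away a) (Localization.Away (f a)) := g.toAlgebra
  have : Algebra.IsIntegral (Localization.Away a) (Localization.Away (f a)) :=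
    ⟨RingHom.Finite.to_isIntegral h⟩
  exact Order.krullDim_le_of_strictMono
    (fun P : PrimeSpectrum (Localization.Away (f a)) =>
      (⟨P.asIdeal.comap (algebraMap (Localization.Away a) (Localization.Away (f a))),
        inferInstance⟩ : PrimeSpectrum (Localization.Away a)))
    (fun P Q hPQ => Ideal.IsIntegral.comap_lt_comap (R := Localization.Away a) hPQ)

end Pool.Agent.Helper24.GF.INT
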