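import Pool.Agent.Helper24.GF.Stm

/-! # Module KAP (helper76): the constant lift of `ρbar` to `W(k)` -/

set_option autoImplicit false

namespace Pool.Agent.Helper24.GF.KAP

open IsLocalRing MZ Pool.Agent.Helper15.MD

theorem main (h1 : S_KLV) (h2 : S_KLM) (h3 : S_BRW) : S_KAP := by
  classical
  intro k _ _ _ G _ ρbar h27 hirr
  obtain ⟨w1, w2, w3, w4⟩ := Pool.Agent.W505.MZ.ExW.main 2 k
  set R := WittVector 2 k with hR
  set I : Ideal (WittVector 2 k) := maximalIdeal (WittVector 2 k) with hI
  let res : WittVector 2 k →+* k := WittVector.constantCoeff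
  have hsurj : Function.Surjective res := fun c =>
    ⟨WittVector.teichmuller 2 c, WittVector.teichmuller_coeff_zero 2 c⟩
  have hres : ∀ x, res x = 0 ↔ x ∈ I := fun x => (w4 x).symm
  have h2I : (2 : WittVector 2 k) ∈ I := by
    rw [← hres, map_ofNat]
    exact CharTwo.two_eq_zero
  have hfin1 : Finite (WittVector 2 k ⧸ I) := by
    have hker : ∀ x, x ∈ I → res x = 0 := fun x hx => (hres x).2 hx
    refine Finite.of_injective (Ideal.Quotient.lift I res hker) ?_
    rw [injective_iff_map_eq_zero]
    intro x hx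
    obtain ⟨y, rfl⟩ := Ideal.Quotient.mk_surjective x
    rw [Ideal.Quotient.lift_mk] at hx
    exact Ideal.Quotient.eq_zero_iff_mem.2 ((hres y).1 hx)
  have hfin : ∀ m : ℕ, Finite (WittVector 2 k ⧸ I ^ m) := fun m =>
    Ideal.finite_quotient_pow (IsNoetherian.noetherian I) m
  have hfM : Finite (Matrix (Fin 3) (Fin 3) k) := by
    unfold Matrix; infer_instance
  have hfG : Finite (GL (Fin 3) k) := inferInstanceAs (Finite (Matrix (Fin 3) (Fin 3) k)ˣ)
  have hodd : ¬ 2 ∣ Nat.card ρbar.range := by
    intro h
    obtain ⟨x, hx⟩ := exists_prime_orderOf_dvd_card' 2 h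
    have h27' : x ^ 27 = 1 := by
      obtain ⟨y, g, rfl⟩ := x
      apply Subtype.ext
      exact h27 g
    have := orderOf_dvd_of_pow_eq_one h27'
    rw [hx] at this
    omega
  obtain ⟨β, hβ⟩ := h2 (WittVector 2 k) k I res hsurj hres w3.toIsHausdorff w3.toIsPrecomplete hfin
    ρbar.range 3 ρbar.range.subtype
    (h1 (WittVector 2 k) k I res hsurj hres h2I hfin ρbar.range hodd 3 ρbar.range.subtype)
  refine ⟨β.comp ρbar.rangeRestrict, fun g => hβ _, fun g hg => ?_, fun g ⟨a, ha⟩ => ?_⟩
  · have : ρbar.rangeRestrict g = 1 := Subtype.ext hg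
    rw [MonoidHom.comp_apply, this, map_one]
  · set K : G →* GL (Fin 3) (WittVector 2 k) := β.comp ρbar.rangeRestrict with hK
    have hspan := h3 k G 3 ρbar (by norm_num) hirr K (fun g => hβ _)
    have hcomm : ∀ g', K g' * K g = K g * K g' := by
      intro g'
      have hc : ρbar g' * ρbar g = ρbar g * ρbar g' := by
        apply Units.ext
        rw [Units.val_mul, Units.val_mul, ha]
        simp
      have hc' : ρbar.rangeRestrict g' * ρbar.rangeRestrict g =
          ρbar.rangeRestrict g * ρbar.rangeRestrict g' := Subtype.ext hc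
      rw [hK, MonoidHom.comp_apply, MonoidHom.comp_apply, ← map_mul, hc', map_mul]
    have hall : ∀ X : Matrix (Fin 3) (Fin 3) (WittVector 2 k),
        X * (K g : Matrix (Fin 3) (Fin 3) (WittVector 2 k)) = K g * X := by
      intro X
      have hX : X ∈ Submodule.span (WittVector 2 k)
        (Set.range fun g => (K g : Matrix (Fin 3) (Fin 3) (WittVector 2 k))) := by
        rw [hspan]; trivial
      induction hX using Submodule.span_induction with
      | mem x hx =>
        obtain ⟨g', rfl⟩ := hx
        exact congrArg Units.val (hcomm g')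
      | zero => simp
      | add x y _ _ hx hy => rw [add_mul, mul_add, hx, hy]
      | smul c x _ hx => rw [smul_mul_assoc, mul_smul_comm, hx]
    obtain ⟨b, hb⟩ := Matrix.mem_range_scalar_iff_commute_single'.2
      (fun i j => (hall (Matrix.single i j 1) : Commute _ _))
    refine ⟨b, ?_⟩
    rw [← hb]
    ext i j
    simp [Matrix.scalar_apply, Matrix.diagonal_apply, Matrix.one_apply]

end Pool.Agent.Helper24.GF.KAP
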