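import Pool.Agent.Helper24.GF.Stm

/-! # Module KLM (helper76): the inverse limit of the lifts of a representation -/

set_option autoImplicit false

namespace Pool.Agent.Helper24.GF.KLM

open CategoryTheory Opposite

section
variable {R k : Type} [CommRing R] [Field k] (I : Ideal R) (res : R →+* k)
  {H : Type} [Group H] {n : ℕ} (α : H →* GL (Fin n) k)

/-- the lifts modulo `I ^ (m + 1)` -/
def LF (m : ℕ) : Type :=
  {b : H →* Matrix (Fin n) (Fin n) (R ⧸ I ^ (m + 1)) // ∀ (h : H) (i j : Fin n) (x : R),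
    Ideal.Quotient.mk (I ^ (m + 1)) x = b h i j → res x = (α h : Matrix (Fin n) (Fin n) k) i j}

/-- transition map -/
def tr {m m' : ℕ} (h : m ≤ m') : (R ⧸ I ^ (m' + 1)) →+* (R ⧸ I ^ (m + 1)) :=
  Ideal.Quotient.factor (Ideal.pow_le_pow_right (by omega))

lemma tr_mk {m m' : ℕ} (h : m ≤ m') (x : R) :
    tr I h (Ideal.Quotient.mk (I ^ (m' + 1)) x) = Ideal.Quotient.mk (I ^ (m + 1)) x := rfl

def LFmap (hres : ∀ x, res x = 0 ↔ x ∈ I) {m m' : ℕ} (h : m ≤ m') (b : LF I res α m') :
    LF I res α m :=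
  ⟨((tr I h).mapMatrix : Matrix (Fin n) (Fin n) _ →+* _).toMonoidHom.comp b.1, by
    intro g i j x hx
    obtain ⟨y, hy⟩ := Ideal.Quotient.mk_surjective (b.1 g i j)
    have h1 := b.2 g i j y hy
    have h2 : Ideal.Quotient.mk (I ^ (m + 1)) x = Ideal.Quotient.mk (I ^ (m + 1)) y := by
      rw [hx, ← tr_mk I h y, hy]; rfl
    rw [Ideal.Quotient.eq] at h2
    have h3 : res (x - y) = 0 := (hres _).2 (Ideal.pow_le_self (by omega) h2)
    rw [map_sub, sub_eq_zero] at h3
    rw [h3, h1]⟩

lemma LFmap_apply (hres : ∀ x, res x = 0 ↔ x ∈ I) {m m' : ℕ} (h : m ≤ m') (b : LF I res α m')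
    (g : H) (i j : Fin n) : (LFmap I res α hres h b).1 g i j = tr I h (b.1 g i j) := rfl

lemma LF_ext {m : ℕ} {b c : LF I res α m} (h : ∀ g i j, b.1 g i j = c.1 g i j) : b = c := by
  apply Subtype.ext
  apply MonoidHom.ext
  intro g
  ext i j
  exact h g i j

/-- the inverse system -/
def Fun (hres : ∀ x, res x = 0 ↔ x ∈ I) : ℕᵒᵖ ⥤ Type where
  obj m := LF I res α m.unop
  map {m m'} f := ↾(LFmap I res α hres (leOfHom f.unop))
  map_id m := by
    ext b
    apply LF_ext
    intro g i j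
    obtain ⟨y, hy⟩ := Ideal.Quotient.mk_surjective (b.1 g i j)
    show tr I (le_refl m.unop) (b.1 g i j) = b.1 g i j
    rw [← hy]
    rfl
  map_comp {a b c} f f' := by
    ext x
    apply LF_ext
    intro g i j
    obtain ⟨y, hy⟩ := Ideal.Quotient.mk_surjective (x.1 g i j)
    show tr I (leOfHom (f ≫ f').unop) (x.1 g i j) =
      tr I (leOfHom f'.unop) (tr I (leOfHom f.unop) (x.1 g i j))
    rw [← hy]
    rfl

end

theorem main : S_KLM := by
  intro R k _ _ I res hsurj hres hH hP hfin H _ _ n α hβ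
  have : ∀ m : ℕ, Finite (R ⧸ I ^ m) := hfin
  have hF : ∀ m : ℕ, Finite (LF I res α m) := by
    intro m
    have : Finite (Matrix (Fin n) (Fin n) (R ⧸ I ^ (m + 1))) := by
      unfold Matrix; infer_instance
    have : Finite (H → Matrix (Fin n) (Fin n) (R ⧸ I ^ (m + 1))) := inferInstance
    have : Finite (H →* Matrix (Fin n) (Fin n) (R ⧸ I ^ (m + 1))) :=
      Finite.of_injective (fun b => (b : H → Matrix (Fin n) (Fin n) (R ⧸ I ^ (m + 1))))
        DFunLike.coe_injective
    unfold LF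
    infer_instance
  have hN : ∀ m : ℕ, Nonempty (LF I res α m) := by
    intro m
    obtain ⟨β, hb⟩ := hβ m
    exact ⟨⟨(Units.coeHom _).comp β, hb⟩⟩
  have : ∀ j : ℕᵒᵖ, Finite ((Fun I res α hres).obj j) := fun j => hF j.unop
  have : ∀ j : ℕᵒᵖ, Nonempty ((Fun I res α hres).obj j) := fun j => hN j.unop
  obtain ⟨s, hs⟩ := nonempty_sections_of_finite_inverse_system (Fun I res α hres)
  let b : (m : ℕ) → LF I res α m := fun m => s (op m)
  have hb : ∀ {m m' : ℕ} (h : m ≤ m') (g : H) (i j : Fin n),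
      tr I h ((b m').1 g i j) = (b m).1 g i j := by
    intro m m' h g i j
    have h1 := hs (homOfLE h).op
    have h2 : LFmap I res α hres h (b m') = b m := h1
    rw [← h2]
    rfl
  have hL : ∀ (g : H) (i j : Fin n), ∃ L : R, ∀ m, Ideal.Quotient.mk (I ^ (m + 1)) L =
      (b m).1 g i j := by
    intro g i j
    choose x hx using fun m => Ideal.Quotient.mk_surjective ((b m).1 g i j)
    have hc : ∀ {m m' : ℕ}, m ≤ m' → x m - x m' ∈ I ^ (m + 1) := by
      intro m m' h
      rw [← Ideal.Quotient.eq, hx m, ← hb h, ← hx m', tr_mk]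
    obtain ⟨L, hL⟩ := hP.prec' x (by
      intro m m' h
      rw [SModEq.sub_mem, smul_eq_mul, Ideal.mul_top]
      exact Ideal.pow_le_pow_right (by omega) (hc h))
    refine ⟨L, fun m => ?_⟩
    have h1 := hL (m + 1)
    rw [SModEq.sub_mem, smul_eq_mul, Ideal.mul_top] at h1
    rw [← hx m, Ideal.Quotient.eq]
    have h2 := hc (Nat.le_succ m)
    have h3 : L - x m = -((x (m + 1)) - L) - (x m - x (m + 1)) := by ring
    rw [h3]
    exact (I ^ (m + 1)).sub_mem ((I ^ (m + 1)).neg_mem h1) h2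
  choose L hL using hL
  let B : H → Matrix (Fin n) (Fin n) R := fun g => Matrix.of (fun i j => L g i j)
  have hBm : ∀ (m : ℕ) (g : H), (Ideal.Quotient.mk (I ^ (m + 1))).mapMatrix (B g) = (b m).1 g := by
    intro m g
    ext i j
    exact hL g i j m
  have hext : ∀ x y : Matrix (Fin n) (Fin n) R,
      (∀ m : ℕ, (Ideal.Quotient.mk (I ^ (m + 1))).mapMatrix x =
        (Ideal.Quotient.mk (I ^ (m + 1))).mapMatrix y) → x = y := by
    intro x y h
    ext i j
    rw [← sub_eq_zero]
    apply hH.haus'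
    intro m
    rw [SModEq.sub_mem, smul_eq_mul, Ideal.mul_top, sub_zero]
    have h1 := congrFun (congrFun (h m) i) j
    have h2 : Ideal.Quotient.mk (I ^ (m + 1)) (x i j) = Ideal.Quotient.mk (I ^ (m + 1)) (y i j) := h1
    rw [Ideal.Quotient.eq] at h2
    exact Ideal.pow_le_pow_right (by omega) h2
  let β0 : H →* Matrix (Fin n) (Fin n) R :=
    { toFun := B
      map_one' := by
        apply hext
        intro m
        rw [hBm, map_one, map_one]
      map_mul' := by
        intro g h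
        apply hext
        intro m
        rw [hBm, map_mul, map_mul, hBm, hBm] }
  refine ⟨β0.toHomUnits, ?_⟩
  intro h
  ext i j
  show res (L h i j) = _
  exact (b 0).2 h i j _ (hL h i j 0)

end Pool.Agent.Helper24.GF.KLM
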