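import Pool.Agent.Helper24.GF.Stm

/-! Module KLV by helper2. -/

set_option autoImplicit false

namespace Pool.Agent.Helper24.GF.KLV

section mat

variable {S : Type} [CommRing S] (J : Ideal S) (n : ℕ)

lemma mul_entries {a b : ℕ} {A B : Matrix (Fin n) (Fin n) S} (hA : ∀ i j, A i j ∈ J ^ a)
    (hB : ∀ i j, B i j ∈ J ^ b) : ∀ i j, (A * B) i j ∈ J ^ (a + b) := by
  intro i j
  rw [Matrix.mul_apply, pow_add]
  exact Ideal.sum_mem _ fun l _ => Ideal.mul_mem_mul (hA i l) (hB l j)

lemma pow_entries (h2 : (2 : S) ∈ J) {X : Matrix (Fin n) (Fin n) S} (hX : ∀ i j, X i j ∈ J)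
    (m : ℕ) : ∀ i j, (((1 + X) ^ (2 ^ m) - 1 : Matrix (Fin n) (Fin n) S)) i j ∈ J ^ (m + 1) := by
  induction m with
  | zero =>
    intro i j
    simpa using hX i j
  | succ m ih =>
    intro i j
    set Y := (1 + X) ^ (2 ^ m) - 1 with hY
    have e : (1 + X) ^ (2 ^ (m + 1)) - 1 = (2 : S) • Y + Y * Y := by
      have h1 : (1 + X) ^ (2 ^ (m + 1)) = (Y + 1) * (Y + 1) := by
        rw [hY, sub_add_cancel, pow_succ, pow_mul, pow_two]
      rw [h1, two_smul]
      noncomm_ring
    rw [e, Matrix.add_apply]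
    refine add_mem ?_ ?_
    · rw [Matrix.smul_apply, smul_eq_mul, pow_succ' J (m + 1)]
      exact Ideal.mul_mem_mul h2 (ih i j)
    · have h3 := mul_entries J n ih ih i j
      exact Ideal.pow_le_pow_right (by omega) h3

end mat

section lift

variable {S k : Type} [CommRing S] [Field k] (f : S →+* k) (n : ℕ)

lemma isUnit_of (hf : Function.Surjective f) (hn : ∀ x, f x = 0 → IsNilpotent x) (x : S)
    (hx : f x ≠ 0) : IsUnit x := by
  obtain ⟨y, hy⟩ := hf (f x)⁻¹
  have h1 : f (x * y - 1) = 0 := by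
    rw [map_sub, map_mul, hy, map_one, mul_inv_cancel₀ hx, sub_self]
  have h2 : IsUnit (1 + (x * y - 1)) := (hn _ h1).isUnit_one_add
  rw [add_sub_cancel] at h2
  exact isUnit_of_mul_isUnit_left h2

lemma map_surj (hf : Function.Surjective f) (hn : ∀ x, f x = 0 → IsNilpotent x) :
    Function.Surjective (Matrix.GeneralLinearGroup.map (n := Fin n) f) := by
  intro g
  choose M hM using fun i j => hf ((g : Matrix (Fin n) (Fin n) k) i j)
  have h1 : f.mapMatrix (Matrix.of M) = (g : Matrix (Fin n) (Fin n) k) := by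
    ext i j
    simp [hM]
  have h2 : f (Matrix.of M).det ≠ 0 := by
    rw [RingHom.map_det, h1]
    exact ((Matrix.isUnit_iff_isUnit_det _).mp g.isUnit).ne_zero
  have h3 : IsUnit (Matrix.of M) :=
    (Matrix.isUnit_iff_isUnit_det _).mpr (isUnit_of f hf hn _ h2)
  refine ⟨h3.unit, ?_⟩
  ext i j
  simp [Matrix.GeneralLinearGroup.map_apply, hM]

end lift

theorem main : S_KLV := by
  intro R k _ _ I res hres hI h2 hfin H _ _ hH n α m
  have : Finite (R ⧸ I ^ (m + 1)) := hfin (m + 1)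
  have hker : ∀ a ∈ I ^ (m + 1), res a = 0 := fun a ha =>
    (hI a).mpr (Ideal.pow_le_self (Nat.succ_ne_zero m) ha)
  set f : (R ⧸ I ^ (m + 1)) →+* k := Ideal.Quotient.lift (I ^ (m + 1)) res hker with hf
  have hfmk : ∀ x, f (Ideal.Quotient.mk (I ^ (m + 1)) x) = res x := fun x => by
    rw [hf, Ideal.Quotient.lift_mk]
  have hfs : Function.Surjective f := by
    intro y
    obtain ⟨x, hx⟩ := hres y
    exact ⟨Ideal.Quotient.mk _ x, by rw [hfmk, hx]⟩
  set J : Ideal (R ⧸ I ^ (m + 1)) := I.map (Ideal.Quotient.mk (I ^ (m + 1))) with hJ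
  have hJ0 : J ^ (m + 1) = ⊥ := by
    rw [hJ, ← Ideal.map_pow, Ideal.map_quotient_self]
  have hJmem : ∀ x, f x = 0 → x ∈ J := by
    intro x hx
    obtain ⟨y, rfl⟩ := Ideal.Quotient.mk_surjective x
    rw [hfmk] at hx
    exact Ideal.mem_map_of_mem _ ((hI y).mp hx)
  have hnil : ∀ x, f x = 0 → IsNilpotent x := by
    intro x hx
    refine ⟨m + 1, ?_⟩
    have h := Ideal.pow_mem_pow (hJmem x hx) (m + 1)
    rwa [hJ0, Ideal.mem_bot] at h
  have h2J : (2 : R ⧸ I ^ (m + 1)) ∈ J := by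
    have := Ideal.mem_map_of_mem (Ideal.Quotient.mk (I ^ (m + 1))) h2
    rwa [map_ofNat] at this
  set π : GL (Fin n) (R ⧸ I ^ (m + 1)) →* GL (Fin n) k := Matrix.GeneralLinearGroup.map f with hπ
  have hπs : Function.Surjective π := map_surj f n hfs hnil
  have hπk : ∀ g : GL (Fin n) (R ⧸ I ^ (m + 1)), π g = 1 → g ^ (2 ^ m) = 1 := by
    intro g hg
    have h1 : ∀ i j, ((g : Matrix (Fin n) (Fin n) (R ⧸ I ^ (m + 1))) - 1) i j ∈ J := by
      intro i j
      apply hJmem
      have h3 := congrArg (fun u : GL (Fin n) k => (u : Matrix (Fin n) (Fin n) k) i j) hg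
      simp only [hπ, Matrix.GeneralLinearGroup.map_apply, Units.val_one] at h3
      rw [Matrix.sub_apply, map_sub, h3]
      by_cases hij : i = j
      · subst hij; simp
      · simp [hij]
    have h4 := pow_entries J n h2J h1 m
    apply Units.ext
    rw [Units.val_pow_eq_pow_val, Units.val_one]
    ext i j
    have h5 := h4 i j
    rw [hJ0, Ideal.mem_bot, Matrix.sub_apply, sub_eq_zero] at h5
    rwa [add_sub_cancel] at h5
  -- the fibre product
  let E : Subgroup (H × GL (Fin n) (R ⧸ I ^ (m + 1))) :=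
    (α.comp (MonoidHom.fst _ _)).eqLocus (π.comp (MonoidHom.snd _ _))
  have hE : ∀ x : H × GL (Fin n) (R ⧸ I ^ (m + 1)), x ∈ E ↔ α x.1 = π x.2 := fun x => Iff.rfl
  let p : E →* H := (MonoidHom.fst _ _).comp E.subtype
  have hp : ∀ x : E, p x = x.1.1 := fun x => rfl
  have hps : Function.Surjective p := by
    intro h
    obtain ⟨g, hg⟩ := hπs (α h)
    exact ⟨⟨(h, g), (hE _).mpr hg.symm⟩, rfl⟩
  have hpg : IsPGroup 2 p.ker := by
    intro x
    refine ⟨m, ?_⟩
    have h1 : x.1.1.1 = 1 := MonoidHom.mem_ker.mp x.2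
    have h3 : π x.1.1.2 = 1 := by
      rw [← (hE _).mp x.1.2, h1, map_one]
    apply Subtype.ext
    apply Subtype.ext
    apply Prod.ext
    · show x.1.1.1 ^ (2 ^ m) = 1
      rw [h1, one_pow]
    · exact hπk _ h3
  have hcop : Nat.Coprime (Nat.card p.ker) p.ker.index := by
    obtain ⟨r, hr⟩ := (IsPGroup.iff_card).mp hpg
    rw [hr, Subgroup.index_ker, MonoidHom.range_eq_top.mpr hps, Subgroup.card_top]
    exact Nat.Coprime.pow_left r ((Nat.Prime.coprime_iff_not_dvd Nat.prime_two).mpr hH)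
  obtain ⟨K, hK⟩ := Subgroup.exists_right_complement'_of_coprime hcop
  have hdis : Disjoint p.ker K := hK.disjoint
  have hbij : Function.Bijective (p.comp K.subtype) := by
    constructor
    · rw [injective_iff_map_eq_one]
      intro x hx
      have h1 : (x : E) ∈ p.ker ⊓ K := ⟨MonoidHom.mem_ker.mpr hx, x.2⟩
      rw [hdis.eq_bot, Subgroup.mem_bot] at h1
      exact Subtype.ext h1
    · intro h
      obtain ⟨x, rfl⟩ := hps h
      obtain ⟨⟨a, b⟩, hab⟩ := hK.2 x
      refine ⟨b, ?_⟩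
      rw [← hab]
      show p b = p (a * b)
      rw [map_mul, MonoidHom.mem_ker.mp a.2, one_mul]
  let e : K ≃* H := MulEquiv.ofBijective _ hbij
  refine ⟨((MonoidHom.snd _ _).comp E.subtype).comp (K.subtype.comp e.symm.toMonoidHom), ?_⟩
  intro h i j x hx
  have h1 : e (e.symm h) = h := e.apply_symm_apply h
  set y : K := e.symm h with hy
  have h3 : (y : E).1.1 = h := h1
  have h4 : α h = π (y : E).1.2 := by
    rw [← h3]
    exact (hE _).mp (y : E).2
  have hx' : Ideal.Quotient.mk (I ^ (m + 1)) x =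
      ((y : E).1.2 : Matrix (Fin n) (Fin n) (R ⧸ I ^ (m + 1))) i j := hx
  rw [← hfmk, hx', h4, hπ, Matrix.GeneralLinearGroup.map_apply]

end Pool.Agent.Helper24.GF.KLV
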