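import Pool.Agent.Helper24.GF.Stm

/-!
# Mazur's dimension conjecture, generic fibre: the lower bound of the dimension from the data
-/

set_option autoImplicit false

namespace Pool.Agent.Helper24.GF.LFT

open IsLocalRing MZ Pool.Agent.Helper15.MD Pool.Agent.Helper24.GF

section ring

variable {k : Type} [Field k] {V : Type}

/-- the variables -/
abbrev Ta (V : Type) : Type := Option (V × Fin 4)

/-- the ring of power series over the ring of Witt vectors -/
abbrev BB (k : Type) [Field k] (V : Type) : Type := MvPowerSeries (Ta V) (WittVector 2 k)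

/-- the constants -/
noncomputable abbrev CC (k : Type) [Field k] (V : Type) : WittVector 2 k →+* BB k V := MvPowerSeries.C

/-- the residue map -/
noncomputable abbrev RR (k : Type) [Field k] (V : Type) : BB k V →+* k :=
  (WittVector.constantCoeff : WittVector 2 k →+* k).comp MvPowerSeries.constantCoeff

/-- the variable -/
noncomputable def x (v : V) (i : Fin 4) : BB k V := MvPowerSeries.X (some (v, i))

/-- the unit `1 - x0 x2 - x1 x3` -/
noncomputable def aa (k : Type) [Field k] (v : V) : BB k V := 1 - x v 0 * x v 2 - x v 1 * x v 3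

/-- the matrix `-2 e`, `e` the idempotent of rank one with four parameters -/
noncomputable def NM (k : Type) [Field k] (v : V) : Matrix (Fin 3) (Fin 3) (BB k V) :=
  !![-2 * aa k v, -2 * x v 2, -2 * x v 3;
     -2 * (x v 0 * aa k v), -2 * (x v 0 * x v 2), -2 * (x v 0 * x v 3);
     -2 * (x v 1 * aa k v), -2 * (x v 1 * x v 2), -2 * (x v 1 * x v 3)]

lemma NM_sq (v : V) : NM k v * NM k v + NM k v + NM k v = 0 := by
  unfold NM aa
  ext1 i j
  fin_cases i <;> fin_cases j <;>
    simp only [Matrix.add_apply, Matrix.mul_apply, Fin.sum_univ_three, Matrix.of_apply, Matrix.cons_val',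
      Matrix.cons_val_zero,
      Matrix.cons_val_one, Matrix.cons_val, Matrix.zero_apply, Fin.zero_eta, Fin.mk_one,
      Fin.reduceFinMk, Fin.isValue] <;> ring

lemma NM_inv (v : V) : (1 + NM k v) * (1 + NM k v) = 1 := by
  rw [mul_add, add_mul, add_mul, mul_one, mul_one, one_mul]
  calc 1 + NM k v + (NM k v + NM k v * NM k v) = 1 + (NM k v * NM k v + NM k v + NM k v) := by abel
    _ = 1 := by rw [NM_sq, add_zero]

/-- the involution -/
noncomputable def XM (k : Type) [Field k] (v : V) : GL (Fin 3) (BB k V) where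
  val := 1 + NM k v
  inv := 1 + NM k v
  val_inv := NM_inv v
  inv_val := NM_inv v

lemma XM_sq (v : V) : XM k v * XM k v = 1 := by
  have : XM k v * (XM k v)⁻¹ = 1 := mul_inv_cancel _
  exact this

lemma XM_red [CharP k 2] (v : V) : Matrix.GeneralLinearGroup.map (RR k V) (XM k v) = 1 := by
  have h2 : (2 : k) = 0 := by exact_mod_cast CharP.cast_eq_zero k 2
  ext a b
  rw [Matrix.GeneralLinearGroup.map_apply]
  show RR k V ((1 + NM k v) a b) = (1 : Matrix (Fin 3) (Fin 3) k) a b
  have hN : RR k V (NM k v a b) = 0 := by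
    have h3 : RR k V 2 = 0 := by rw [map_ofNat]; exact h2
    obtain ⟨c, hc⟩ : ∃ c, NM k v a b = -2 * c := by
      unfold NM
      fin_cases a <;> fin_cases b <;> exact ⟨_, rfl⟩
    rw [hc, map_mul, map_neg, h3, neg_zero, zero_mul]
  rw [Matrix.add_apply, map_add, hN, add_zero]
  by_cases hab : a = b
  · subst hab; simp
  · simp [Matrix.one_apply_ne hab]

lemma isUnit_T : IsUnit (1 + MvPowerSeries.X none : BB k V) := by
  rw [MvPowerSeries.isUnit_iff_constantCoeff]
  simp

/-- the scalar matrix `1 + T` -/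
noncomputable def UM (k : Type) [Field k] (V : Type) : GL (Fin 3) (BB k V) :=
  Units.map (Matrix.scalar (Fin 3)).toMonoidHom (isUnit_T (k := k) (V := V)).unit

lemma UM_coe : (UM k V : Matrix (Fin 3) (Fin 3) (BB k V)) = (1 + MvPowerSeries.X none : BB k V) • 1 := by
  show Matrix.scalar (Fin 3) (1 + MvPowerSeries.X none : BB k V) = _
  rw [Matrix.scalar_apply, ← Matrix.smul_one_eq_diagonal]

lemma UM_red : Matrix.GeneralLinearGroup.map (RR k V) (UM k V) = 1 := by
  ext a b
  rw [Matrix.GeneralLinearGroup.map_apply, UM_coe]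
  by_cases hab : a = b
  · subst hab; simp
  · simp [Matrix.one_apply_ne hab]

lemma UM_comm (M : GL (Fin 3) (BB k V)) : M * UM k V * M⁻¹ = UM k V := by
  have h : M * UM k V = UM k V * M := by
    apply Units.ext
    rw [Units.val_mul, Units.val_mul, UM_coe, Matrix.smul_mul, Matrix.mul_smul, one_mul, mul_one]
  rw [h, mul_inv_cancel_right]

/-- constant matrices -/
noncomputable def GM (k : Type) [Field k] (V : Type) (n : ℕ) :
    GL (Fin n) (WittVector 2 k) →* GL (Fin n) (BB k V) :=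
  Matrix.GeneralLinearGroup.map (CC k V)

lemma map_GM (n : ℕ) (M : GL (Fin n) (WittVector 2 k)) :
    Matrix.GeneralLinearGroup.map (RR k V) (GM k V n M) =
      Matrix.GeneralLinearGroup.map (WittVector.constantCoeff : WittVector 2 k →+* k) M := by
  ext a b
  simp [GM]

lemma GM_coe (n : ℕ) (M : GL (Fin n) (WittVector 2 k)) :
    ((GM k V n M : GL (Fin n) (BB k V)) : Matrix (Fin n) (Fin n) (BB k V)) =
      (M : Matrix (Fin n) (Fin n) (WittVector 2 k)).map (CC k V) := rfl

lemma map_smul_one (n : ℕ) (a : WittVector 2 k) :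
    ((a • (1 : Matrix (Fin n) (Fin n) (WittVector 2 k))).map (CC k V) :
    Matrix (Fin n) (Fin n) (BB k V)) = (CC k V a) • 1 := by
  ext1 i j
  by_cases hij : i = j
  · subst hij; simp
  · simp [Matrix.one_apply_ne hij]

/-- conjugation by scalar-equivalent matrices agree -/
lemma conj_scalar {n : ℕ} (M N : GL (Fin n) (WittVector 2 k)) (a : WittVector 2 k)
    (h : ((M * N⁻¹ : GL (Fin n) (WittVector 2 k)) : Matrix (Fin n) (Fin n) (WittVector 2 k)) =
      a • (1 : Matrix (Fin n) (Fin n) (WittVector 2 k)))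
    (Y : GL (Fin n) (BB k V)) :
    GM k V n M * Y * (GM k V n M)⁻¹ = GM k V n N * Y * (GM k V n N)⁻¹ := by
  have h1 : ((GM k V n (M * N⁻¹) : GL (Fin n) (BB k V)) : Matrix (Fin n) (Fin n) (BB k V))
      = (CC k V a) • (1 : Matrix (Fin n) (Fin n) (BB k V)) := by
    rw [GM_coe, h, map_smul_one]
  have hc : GM k V n (M * N⁻¹) * (GM k V n N * Y * (GM k V n N)⁻¹) =
      (GM k V n N * Y * (GM k V n N)⁻¹) * GM k V n (M * N⁻¹) := by
    refine Units.ext ?_
    rw [Units.val_mul (GM k V n (M * N⁻¹)), Units.val_mul (GM k V n N * Y * (GM k V n N)⁻¹),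
      h1, Matrix.smul_mul, Matrix.mul_smul, Matrix.one_mul, Matrix.mul_one]
  have h2 : GM k V n M = GM k V n (M * N⁻¹) * GM k V n N := by
    rw [← map_mul]; congr 1; group
  calc GM k V n M * Y * (GM k V n M)⁻¹
      = GM k V n (M * N⁻¹) * (GM k V n N * Y * (GM k V n N)⁻¹) *
          (GM k V n (M * N⁻¹))⁻¹ := by
        rw [h2]; group
    _ = GM k V n N * Y * (GM k V n N)⁻¹ := by rw [hc]; group

end ring

section QW

variable {W : Type} [CommRing W] {τ : Type}

lemma CX (a : W) (s : τ) : (MvPowerSeries.C a * MvPowerSeries.X s : MvPowerSeries τ W) =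
    MvPowerSeries.monomial (Finsupp.single s 1) a := by
  classical
  rw [MvPowerSeries.X, ← MvPowerSeries.monomial_zero_eq_C_apply, MvPowerSeries.monomial_mul_monomial]
  simp

lemma CX_mem {o : τ → ℕ} {r : ℕ} {a : W} {s : τ} (hs : o s < r) (g : MvPowerSeries τ W) :
    (MvPowerSeries.C a * MvPowerSeries.X s) * g ∈ QW W o r := by
  intro n hn
  have h1 : (MvPowerSeries.X s : MvPowerSeries τ W) ∣ (MvPowerSeries.C a * MvPowerSeries.X s) * g :=
    Dvd.intro (MvPowerSeries.C a * g) (by ring)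
  exact (MvPowerSeries.X_dvd_iff.1 h1) n (hn s hs)

lemma CX_notMem {o : τ → ℕ} {r : ℕ} {a : W} {s : τ} (ha : a ≠ 0) (hs : r ≤ o s)
    (g : MvPowerSeries τ W) (hg : MvPowerSeries.constantCoeff g = 1) :
    (MvPowerSeries.C a * MvPowerSeries.X s) * g ∉ QW W o r := by
  classical
  intro h
  have h1 := h (Finsupp.single s 1) (fun y hy => by
    rw [Finsupp.single_apply, if_neg]
    rintro rfl
    omega)
  rw [CX] at h1
  have h2 := MvPowerSeries.coeff_add_monomial_mul (Finsupp.single s 1) (0 : τ →₀ ℕ) g a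
  rw [add_zero] at h2
  rw [h2, MvPowerSeries.coeff_zero_eq_constantCoeff_apply, hg, mul_one] at h1
  exact ha h1

end QW

theorem main (hLIM : S_LIM) (hEXT : S_EXT) (hDIM : S_DIM) (hBRW : S_BRW) : S_LFT := by
  intro P G 𝒢 V ι _ _ _ _ _ _ _ _ _ _ D k _ _ _ ρbar hρo hρi hρs K hK hK1 hKs R ρu hu
  classical
  -- lifts
  choose lf hlf using D.hsurj
  have hsc' : ∀ g, D.res g ∈ D.j.range →
      ∃ b : WittVector 2 k, (K g : Matrix (Fin 3) (Fin 3) (WittVector 2 k)) = b • 1 :=
    fun g hg => hKs g (hρs g hg)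
  let K' : 𝒢 →* GL (Fin 3) (BB k V) := (GM k V 3).comp K
  have hK' : ∀ g, K' g = GM k V 3 (K g) := fun g => rfl
  let Rm : G → GL (Fin 3) (BB k V) := fun b => GM k V 3 (K (lf b))
  have hRmul : ∀ (g : 𝒢) (b : G) (Y : GL (Fin 3) (BB k V)),
      Rm (D.res g * b) * Y * (Rm (D.res g * b))⁻¹ =
        GM k V 3 (K g) * (Rm b * Y * (Rm b)⁻¹) * (GM k V 3 (K g))⁻¹ := by
    intro g b Y
    obtain ⟨s, hs⟩ := hsc' (lf (D.res g * b) * (g * lf b)⁻¹) (by
      rw [map_mul, map_inv, map_mul, hlf, hlf, mul_inv_cancel]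
      exact Subgroup.one_mem _)
    have := conj_scalar (V := V) (K (lf (D.res g * b))) (K (g * lf b)) s (by
      rw [← map_inv, ← map_mul]; exact hs) Y
    show GM k V 3 (K (lf (D.res g * b))) * Y * (GM k V 3 (K (lf (D.res g * b))))⁻¹ = _
    rw [this]
    show _ = GM k V 3 (K g) * (GM k V 3 (K (lf b)) * Y *
      (GM k V 3 (K (lf b)))⁻¹) * (GM k V 3 (K g))⁻¹
    rw [map_mul, map_mul]
    group
  let t : ι → GL (Fin 3) (BB k V) := fun i => Rm (D.a i) * XM k (D.vv i) * (Rm (D.a i))⁻¹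
  have ht2 : ∀ i, t i * t i = 1 := by
    intro i
    calc Rm (D.a i) * XM k (D.vv i) * (Rm (D.a i))⁻¹ * (Rm (D.a i) * XM k (D.vv i) * (Rm (D.a i))⁻¹)
        = Rm (D.a i) * (XM k (D.vv i) * XM k (D.vv i)) * (Rm (D.a i))⁻¹ := by group
      _ = 1 := by rw [XM_sq, mul_one, mul_inv_cancel]
  have htred : ∀ i, Matrix.GeneralLinearGroup.map (RR k V) (t i) = 1 := by
    intro i
    show Matrix.GeneralLinearGroup.map _ (Rm (D.a i) * XM k (D.vv i) * (Rm (D.a i))⁻¹) = 1
    rw [map_mul, map_mul, XM_red, mul_one, map_inv, mul_inv_cancel]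
  have htπ : ∀ g : 𝒢, D.res g ∈ D.A → ∀ i, t (D.π (D.res g) i) =
      K' g * t i * (K' g)⁻¹ := by
    intro g hg i
    show Rm (D.a (D.π (D.res g) i)) * XM k (D.vv (D.π (D.res g) i)) *
      (Rm (D.a (D.π (D.res g) i)))⁻¹ = _
    rw [D.hπa _ hg, D.hπv, hRmul]
    rfl
  obtain ⟨ψ, hψ1, hψo, hψc, hψσ⟩ := hLIM P ι D.c D.σ D.gen D.asg k 3 (MW k (Ta V)) t (UM k V)
    ht2 htred UM_red
  obtain ⟨ρ, hρl, hρv⟩ := hEXT P G 𝒢 V ι D k 3 (MW k (Ta V)) ρbar hρo K'
    (fun g => (map_GM (V := V) 3 (K g)).trans (hK g))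
    (fun g hg => by
      show GM k V 3 (K g) = 1
      rw [hK1 g hg, map_one])
    (fun g hg => by
      obtain ⟨b, hb⟩ := hsc' g hg
      have hx : ((GM k V 3 (K g) : GL (Fin 3) (BB k V)) : Matrix (Fin 3) (Fin 3) (BB k V)) =
          CC k V b • (1 : Matrix (Fin 3) (Fin 3) (BB k V)) := by
        rw [GM_coe, hb, map_smul_one]
      exact ⟨CC k V b, hx⟩)
    t (UM k V) htπ (fun g => UM_comm _) ψ hψ1 hψo hψc hψσ
  let ρ0 : 𝒢 →* GL (Fin 3) (BB k V) := ρ
  let ψ0 : P →* GL (Fin 3) (BB k V) := ψ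
  have hρv0 : ∀ (g : 𝒢) (q : P), ∀ b ∈ D.A, D.res g = D.j q * b →
      ρ0 g = ψ0 q * GM k V 3 (K g) := hρv
  have hψc0 : ∀ i, ψ0 (D.c i) = t i := hψc
  have hψσ0 : ψ0 D.σ = UM k V := hψσ
  -- Burnside
  have hspan := hBRW k 𝒢 3 ρbar (by norm_num) hρi K hK
  have hW2 : (2 : WittVector 2 k) ≠ 0 := by
    exact_mod_cast WittVector.p_nonzero 2 k
  have hW3 : (3 : WittVector 2 k) ≠ 0 := by
    intro h
    have h1 := congrArg (WittVector.constantCoeff : WittVector 2 k →+* k) h
    rw [map_ofNat, map_zero] at h1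
    have h2 : (2 : k) = 0 := by exact_mod_cast CharP.cast_eq_zero k 2
    have h3 : (1 : k) = 0 := by linear_combination h1 - h2
    exact one_ne_zero h3
  have hunit : ∀ (g : 𝒢) (s : WittVector 2 k),
      (K g : Matrix (Fin 3) (Fin 3) (WittVector 2 k)) = s • (1 : Matrix (Fin 3) (Fin 3) (WittVector 2 k)) →
      s ≠ 0 := by
    rintro g s hs rfl
    rw [zero_smul] at hs
    have := (K g).isUnit
    rw [hs] at this
    exact not_isUnit_zero this
  have hspanA : Submodule.span (WittVector 2 k)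
      (Set.range fun b : D.A => (K (lf b) : Matrix (Fin 3) (Fin 3) (WittVector 2 k))) = ⊤ := by
    rw [eq_top_iff, ← hspan, Submodule.span_le]
    rintro _ ⟨g, rfl⟩
    obtain ⟨b, hb, q, hq, hbq⟩ := D.hA' (D.res g)
    obtain ⟨s, hs⟩ := hsc' (g * (lf b)⁻¹) (by
      rw [map_mul, map_inv, hlf, hbq, mul_inv_cancel_right]
      exact hq)
    have h1 : (K g : Matrix (Fin 3) (Fin 3) (WittVector 2 k)) =
        s • (K (lf b) : Matrix (Fin 3) (Fin 3) (WittVector 2 k)) := by
      have : K g = K (g * (lf b)⁻¹) * K (lf b) := by rw [← map_mul]; congr 1; group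
      rw [this, Units.val_mul, hs, Matrix.smul_mul, one_mul]
    show (K g : Matrix (Fin 3) (Fin 3) (WittVector 2 k)) ∈ _
    rw [h1]
    exact Submodule.smul_mem _ _ (Submodule.subset_span ⟨⟨b, hb⟩, rfl⟩)
  -- order of the variables
  let e := Fintype.equivFin V
  let o : Ta V → ℕ := fun s => match s with
    | none => 4 * Fintype.card V
    | some (v, i) => 4 * (e v : ℕ) + (i : ℕ)
  let cst : 𝒢 → WittVector 2 k := fun g => (K g : Matrix (Fin 3) (Fin 3) (WittVector 2 k)).trace
  have hmain := hDIM k 𝒢 3 ρbar (Ta V) o (4 * Fintype.card V + 1) ρ hρl ?_ R ρu hu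
  · exact hmain
  intro r hr
  refine ⟨cst, ?_⟩
  show ∃ w : 𝒢 →₀ WittVector 2 k, TrW ρ0 cst w ∈ QW (WittVector 2 k) o (r + 1) ∧
    TrW ρ0 cst w ∉ QW (WittVector 2 k) o r
  rcases Nat.lt_succ_iff_lt_or_eq.1 hr with hr1 | hr1
  · -- a variable of a place
    obtain ⟨v, i, hvi⟩ : ∃ (v : V) (i : Fin 4), 4 * (e v : ℕ) + (i : ℕ) = r := by
      refine ⟨e.symm ⟨r / 4, by omega⟩, ⟨r % 4, Nat.mod_lt _ (by norm_num)⟩, ?_⟩
      rw [Equiv.apply_symm_apply]
      show 4 * (r / 4) + r % 4 = r
      omega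
    let ct : 𝒢 := lf (D.j (D.c (D.bs v)))
    obtain ⟨sc, hsc⟩ := hsc' ct (by
      show D.res (lf _) ∈ D.j.range
      rw [hlf]
      exact ⟨_, rfl⟩)
    have hsc0 : sc ≠ 0 := hunit ct sc hsc
    have hval : ∀ b ∈ D.A, ((ρ0 (lf b * ct) : GL (Fin 3) (BB k V)) : Matrix (Fin 3) (Fin 3) (BB k V)) =
        CC k V sc • ((K (lf b) : Matrix (Fin 3) (Fin 3) (WittVector 2 k)).map (CC k V) * (1 + NM k v)) := by
      intro b hb
      have h1 : D.res (lf b * ct) = D.j (D.c (D.π b (D.bs v))) * b := by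
        rw [map_mul, hlf, ← D.hπc b hb]
        show b * D.res (lf (D.j (D.c (D.bs v)))) = _
        rw [hlf]
        group
      have h2 : ρ0 (lf b * ct) = ψ0 (D.c (D.π b (D.bs v))) * GM k V 3 (K (lf b * ct)) :=
        hρv0 _ _ b hb h1
      have h3 : ψ0 (D.c (D.π b (D.bs v))) = Rm b * XM k v * (Rm b)⁻¹ := by
        have h31 : ψ0 (D.c (D.π b (D.bs v))) = t (D.π b (D.bs v)) := hψc0 _
        have h32 : t (D.π b (D.bs v)) = Rm (D.a (D.π b (D.bs v))) * XM k (D.vv (D.π b (D.bs v))) *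
          (Rm (D.a (D.π b (D.bs v))))⁻¹ := rfl
        rw [h31, h32, D.hπa b hb, D.hπv, D.hbs, D.hbs1, mul_one]
      have h4 : ρ0 (lf b * ct) = GM k V 3 (K (lf b)) * XM k v * GM k V 3 (K ct) := by
        rw [h2, h3, map_mul, map_mul]
        show GM k V 3 (K (lf b)) * XM k v * (GM k V 3 (K (lf b)))⁻¹ *
          (GM k V 3 (K (lf b)) * GM k V 3 (K ct)) = _
        group
      have h5 : ((ρ0 (lf b * ct) : GL (Fin 3) (BB k V)) : Matrix (Fin 3) (Fin 3) (BB k V)) =
          ((GM k V 3 (K (lf b)) * XM k v * GM k V 3 (K ct) : GL (Fin 3) (BB k V)) :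
            Matrix (Fin 3) (Fin 3) (BB k V)) := congrArg Units.val h4
      rw [h5, Units.val_mul, Units.val_mul, GM_coe, GM_coe, hsc, map_smul_one, Matrix.mul_smul, mul_one]
      rfl
    have hbar : ∀ b, (K (lf b * ct) : Matrix (Fin 3) (Fin 3) (WittVector 2 k)) =
        sc • (K (lf b) : Matrix (Fin 3) (Fin 3) (WittVector 2 k)) := by
      intro b
      rw [map_mul, Units.val_mul, hsc, Matrix.mul_smul, mul_one]
    -- every entry of the matrix is reached
    have hent : ∀ i j : Fin 3, ∃ w : 𝒢 →₀ WittVector 2 k, TrW ρ0 cst w = CC k V sc * NM k v i j := by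
      intro i j
      have hE : (Matrix.single j i (1 : WittVector 2 k)) ∈ Submodule.span (WittVector 2 k)
          (Set.range fun b : D.A => (K (lf b) : Matrix (Fin 3) (Fin 3) (WittVector 2 k))) := by
        rw [hspanA]; trivial
      rw [Finsupp.mem_span_range_iff_exists_finsupp] at hE
      obtain ⟨l, hl⟩ := hE
      refine ⟨l.mapDomain (fun b : D.A => lf b * ct), ?_⟩
      unfold TrW
      rw [Finsupp.sum_mapDomain_index (by intro b; rw [map_zero, zero_mul])
        (by intro b m1 m2; rw [map_add, add_mul])]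
      have h1 : ∀ b : D.A, ((ρ0 (lf b * ct) : Matrix (Fin 3) (Fin 3) (BB k V)).trace -
          CC k V (cst (lf b * ct))) =
          CC k V sc * ((K (lf b) : Matrix (Fin 3) (Fin 3) (WittVector 2 k)).map (CC k V) * NM k v).trace := by
        intro b
        show _ - CC k V ((K (lf b * ct) : Matrix (Fin 3) (Fin 3) (WittVector 2 k)).trace) = _
        rw [hbar, Matrix.trace_smul, smul_eq_mul, map_mul (CC k V)]
        have h2 : ((ρ0 (lf b * ct) : GL (Fin 3) (BB k V)) : Matrix (Fin 3) (Fin 3) (BB k V)).trace =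
            (CC k V sc • ((K (lf b) : Matrix (Fin 3) (Fin 3) (WittVector 2 k)).map (CC k V) *
              (1 + NM k v))).trace := by
          rw [hval b b.2]
        have h3 : CC k V ((K (lf b) : Matrix (Fin 3) (Fin 3) (WittVector 2 k)).trace) =
            ((K (lf b) : Matrix (Fin 3) (Fin 3) (WittVector 2 k)).map (CC k V)).trace := by
          simp [Matrix.trace, Matrix.map_apply]
        rw [h2, h3,
          Matrix.trace_smul, smul_eq_mul, mul_add, mul_one, Matrix.trace_add]
        ring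
      have h4 : (l.sum fun b x => MvPowerSeries.C x *
          ((ρ0 (lf b * ct) : Matrix (Fin 3) (Fin 3) (BB k V)).trace -
          CC k V (cst (lf b * ct)))) =
          CC k V sc * ((l.sum fun b x => x • (K (lf b) : Matrix (Fin 3) (Fin 3) (WittVector 2 k))).map
            (CC k V) * NM k v).trace := by
        rw [Finsupp.sum, Finsupp.sum]
        have h5 : ((∑ b ∈ l.support, l b • (K (lf b) : Matrix (Fin 3) (Fin 3) (WittVector 2 k))).map
              (CC k V) : Matrix (Fin 3) (Fin 3) (BB k V)) =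
            ∑ b ∈ l.support, CC k V (l b) •
              (K (lf b) : Matrix (Fin 3) (Fin 3) (WittVector 2 k)).map (CC k V) := by
          ext1 a c
          rw [Matrix.map_apply, Matrix.sum_apply, Matrix.sum_apply, map_sum]
          refine Finset.sum_congr rfl fun b _ => ?_
          rw [Matrix.smul_apply, Matrix.smul_apply, Matrix.map_apply, smul_eq_mul, smul_eq_mul, map_mul]
        rw [h5, Finset.sum_mul, Matrix.trace_sum, Finset.mul_sum]
        refine Finset.sum_congr rfl fun b _ => ?_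
        rw [h1 b, Matrix.smul_mul, Matrix.trace_smul, smul_eq_mul]
        ring
      have h6 : (l.sum fun b x => x • (K (lf b) : Matrix (Fin 3) (Fin 3) (WittVector 2 k))) =
          Matrix.single j i (1 : WittVector 2 k) := hl
      refine h4.trans ?_
      rw [h6]
      congr 1
      have h7 : ((Matrix.single j i (1 : WittVector 2 k)).map (CC k V) : Matrix (Fin 3) (Fin 3) (BB k V)) =
          Matrix.single j i 1 := by
        ext1 a c
        rw [Matrix.map_apply, Matrix.single_apply, Matrix.single_apply]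
        split_ifs <;> simp
      rw [h7, Matrix.trace_mul_comm]
      simp [Matrix.trace, Matrix.mul_apply, Matrix.single_apply, Fin.sum_univ_three]
      fin_cases i <;> fin_cases j <;> simp
    have hoi : ∀ j : Fin 4, o (some (v, j)) = 4 * (e v : ℕ) + (j : ℕ) := fun j => rfl
    -- the entries
    have hm2 : -2 * sc ≠ 0 := mul_ne_zero (neg_ne_zero.2 hW2) hsc0
    have hgo : ∀ s : Fin 4, 4 * (e v : ℕ) + (s : ℕ) = r → ∀ f g : BB k V,
        MvPowerSeries.constantCoeff g = 1 → f = CC k V sc * (-2 * (x v s * g)) →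
        f ∈ QW (WittVector 2 k) o (r + 1) ∧ f ∉ QW (WittVector 2 k) o r := by
      intro s hs f g hg hf
      have hf' : f = (MvPowerSeries.C (-2 * sc) * MvPowerSeries.X (some (v, s))) * g := by
        rw [hf, map_mul, map_neg, map_ofNat]
        unfold x
        ring
      rw [hf']
      refine ⟨CX_mem (by rw [hoi]; omega) g, CX_notMem hm2 (by rw [hoi]; omega) g hg⟩
    have haa : MvPowerSeries.constantCoeff (aa k v) = 1 := by
      unfold aa x
      simp
    fin_cases i
    · obtain ⟨w, hw⟩ := hent 1 0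
      exact ⟨w, hgo 0 hvi _ (aa k v) haa (by rw [hw]; simp [NM])⟩
    · obtain ⟨w, hw⟩ := hent 2 0
      exact ⟨w, hgo 1 hvi _ (aa k v) haa (by rw [hw]; simp [NM])⟩
    · obtain ⟨w, hw⟩ := hent 0 1
      exact ⟨w, hgo 2 hvi _ 1 (map_one _) (by rw [hw]; simp [NM])⟩
    · obtain ⟨w, hw⟩ := hent 0 2
      exact ⟨w, hgo 3 hvi _ 1 (map_one _) (by rw [hw]; simp [NM])⟩
  · -- the variable of `σ`
    subst hr1
    let gs : 𝒢 := lf (D.j D.σ)
    obtain ⟨sc, hsc⟩ := hsc' gs (by
      show D.res (lf _) ∈ D.j.range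
      rw [hlf]
      exact ⟨_, rfl⟩)
    have hsc0 : sc ≠ 0 := hunit gs sc hsc
    have h1 : ρ0 gs = ψ0 D.σ * GM k V 3 (K gs) :=
      hρv0 gs D.σ 1 D.A.one_mem (by rw [mul_one]; exact hlf _)
    have h2 : ((ρ0 gs : GL (Fin 3) (BB k V)) : Matrix (Fin 3) (Fin 3) (BB k V)) =
        (CC k V sc * (1 + MvPowerSeries.X none)) • 1 := by
      have h3 : (ρ0 gs : GL (Fin 3) (BB k V)) = UM k V * GM k V 3 (K gs) := by
        have : ψ0 D.σ = UM k V := hψσ0
        rw [← this]
        exact h1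
      have h4 : ((ρ0 gs : GL (Fin 3) (BB k V)) : Matrix (Fin 3) (Fin 3) (BB k V)) =
        ((UM k V * GM k V 3 (K gs) : GL (Fin 3) (BB k V)) : Matrix (Fin 3) (Fin 3) (BB k V)) :=
        congrArg Units.val h3
      rw [h4, Units.val_mul, UM_coe, GM_coe, hsc, map_smul_one, Matrix.smul_mul, one_mul, smul_smul,
        mul_comm]
    have h5 : TrW ρ0 cst (Finsupp.single gs 1) =
        (MvPowerSeries.C (3 * sc) * MvPowerSeries.X none) * 1 := by
      unfold TrW
      rw [Finsupp.sum_single_index (by rw [map_zero, zero_mul]), map_one, one_mul]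
      have h6 : ((ρ0 gs : GL (Fin 3) (BB k V)) : Matrix (Fin 3) (Fin 3) (BB k V)).trace =
          3 * (CC k V sc * (1 + MvPowerSeries.X none)) := by
        rw [h2, Matrix.trace_smul, Matrix.trace_one, smul_eq_mul, Fintype.card_fin]
        push_cast
        ring
      have h7 : cst gs = sc * 3 := by
        show (K gs : Matrix (Fin 3) (Fin 3) (WittVector 2 k)).trace = sc * 3
        rw [hsc, Matrix.trace_smul, Matrix.trace_one, smul_eq_mul, Fintype.card_fin]
        push_cast
        ring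
      rw [h6, h7, map_mul, map_mul, map_ofNat]
      ring
    refine ⟨Finsupp.single gs 1, ?_⟩
    rw [h5]
    refine ⟨CX_mem (by show 4 * Fintype.card V < 4 * Fintype.card V + 1; omega) 1,
      CX_notMem (mul_ne_zero hW3 hsc0) (by show 4 * Fintype.card V ≤ 4 * Fintype.card V; exact le_rfl) 1
        (map_one _)⟩

end Pool.Agent.Helper24.GF.LFT
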