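import Pool.Agent.Helper24.GF.Stm

/-!
Module LIM: from finite 2-groups to `GL_n(A)`, for any coefficient ring `A` (variant of MD/LIM.lean by
helper15 and others; only `pgroup` is different).
-/

set_option autoImplicit false
set_option linter.unusedVariables false

noncomputable section

namespace Pool.Agent.Helper24.GF.LIM

open IsLocalRing MZ Pool.Agent.Helper15.MD

/-- the quotients of `R` by the powers of `I` -/
def RR (R : Type) [CommRing R] (I : Ideal R) (m : ℕ) : Type := R ⧸ I ^ m

instance (R : Type) [CommRing R] (I : Ideal R) (m : ℕ) : CommRing (RR R I m) :=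
  inferInstanceAs (CommRing (R ⧸ I ^ m))

section basic

variable {R : Type} [CommRing R] {I : Ideal R}

/-- the quotient map -/
def q (I : Ideal R) (m : ℕ) : R →+* RR R I m := Ideal.Quotient.mk _

lemma q_surj (m : ℕ) : Function.Surjective (q I m) := Ideal.Quotient.mk_surjective

lemma q_eq {m : ℕ} {x y : R} : q I m x = q I m y ↔ x - y ∈ I ^ m :=
  Ideal.Quotient.eq (I := I ^ m)

lemma ext_q (hI : IsHausdorff I R) {x y : R} (h : ∀ m, q I m x = q I m y) : x = y := by
  rw [← sub_eq_zero]
  apply hI.haus'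
  intro m
  rw [SModEq.zero, smul_eq_mul, Ideal.mul_top]
  exact q_eq.mp (h m)

lemma finite_RR [IsNoetherianRing R] [Finite (R ⧸ I)] (m : ℕ) : Finite (RR R I m) :=
  Ideal.finite_quotient_pow (IsNoetherian.noetherian I) m

/-- further truncation -/
def pi {m m' : ℕ} (h : m ≤ m') : RR R I m' →+* RR R I m :=
  Ideal.Quotient.factor (Ideal.pow_le_pow_right h)

lemma pi_q {m m' : ℕ} (h : m ≤ m') (x : R) : pi h (q I m' x) = q I m x := rfl

end basic

section group

variable {R k : Type} [CommRing R] [Field k] (I : Ideal R) (res : R →+* k) (n : ℕ)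

/-- the congruence subgroup -/
def Gam : Subgroup (GL (Fin n) R) :=
  (Matrix.GeneralLinearGroup.map (n := Fin n) res).ker

/-- its image modulo `I ^ m` -/
def HH (m : ℕ) : Subgroup (GL (Fin n) (RR R I m)) :=
  (Gam res n).map (Matrix.GeneralLinearGroup.map (n := Fin n) (q I m))

lemma two_mul_mem (h2 : (2 : R) ∈ I) {X : Matrix (Fin n) (Fin n) R} {j : ℕ}
    (hX : ∀ a b, X a b ∈ I ^ j) : ∀ a b, (X + X : Matrix (Fin n) (Fin n) R) a b ∈ I ^ (j + 1) := by
  intro a b
  rw [Matrix.add_apply, ← mul_two, pow_succ]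
  exact Ideal.mul_mem_mul (hX a b) h2

lemma mul_mem' {X Y : Matrix (Fin n) (Fin n) R} {i j : ℕ} (hX : ∀ a b, X a b ∈ I ^ i)
    (hY : ∀ a b, Y a b ∈ I ^ j) : ∀ a b, (X * Y : Matrix (Fin n) (Fin n) R) a b ∈ I ^ (i + j) := by
  intro a b
  rw [Matrix.mul_apply, pow_add]
  exact Ideal.sum_mem _ fun c _ => Ideal.mul_mem_mul (hX a c) (hY c b)

lemma pow_sub_one (h2 : (2 : R) ∈ I) (g : Matrix (Fin n) (Fin n) R)
    (hg : ∀ a b, (g - 1 : Matrix (Fin n) (Fin n) R) a b ∈ I) (m : ℕ) :
    ∀ a b, (g ^ (2 ^ m) - 1 : Matrix (Fin n) (Fin n) R) a b ∈ I ^ (m + 1) := by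
  induction m with
  | zero =>
    intro a b
    rw [pow_zero, pow_one, pow_one]
    exact hg a b
  | succ m ih =>
    have h : (g ^ (2 ^ (m + 1)) - 1 : Matrix (Fin n) (Fin n) R) =
        ((g ^ (2 ^ m) - 1) + (g ^ (2 ^ m) - 1)) + (g ^ (2 ^ m) - 1) * (g ^ (2 ^ m) - 1) := by
      rw [pow_succ 2 m, pow_mul, pow_two]
      noncomm_ring
    intro a b
    rw [h, Matrix.add_apply]
    refine Ideal.add_mem _ (two_mul_mem I n h2 ih a b) ?_
    exact Ideal.pow_le_pow_right (by omega) (mul_mem' I n ih ih a b)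

variable (hres : ∀ x, res x = 0 ↔ x ∈ I)

include hres

lemma mem_Gam {g : GL (Fin n) R} :
    g ∈ Gam res n ↔ ∀ a b, ((g : Matrix (Fin n) (Fin n) R) - 1) a b ∈ I := by
  unfold Gam
  rw [MonoidHom.mem_ker]
  constructor
  · intro h a b
    have h1 := congrArg (fun M : GL (Fin n) k => (M : Matrix (Fin n) (Fin n) k) a b) h
    simp only [Matrix.GeneralLinearGroup.map_apply] at h1
    rw [← hres, Matrix.sub_apply, map_sub, h1]
    by_cases hab : a = b
    · subst hab; simp
    · simp [hab]
  · intro h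
    ext a b
    have h1 := h a b
    rw [← hres, Matrix.sub_apply, map_sub, sub_eq_zero] at h1
    simp only [Matrix.GeneralLinearGroup.map_apply]
    rw [h1]
    by_cases hab : a = b
    · subst hab; simp
    · simp [hab]

lemma pgroup (h2 : (2 : R) ∈ I) (m : ℕ) : IsPGroup 2 (HH I res n m) := by
  rintro ⟨h, hh⟩
  obtain ⟨g, hg, rfl⟩ := hh
  refine ⟨m, ?_⟩
  apply Subtype.ext
  show (Matrix.GeneralLinearGroup.map (n := Fin n) (q I m) g) ^ (2 ^ m) = 1
  rw [← map_pow]
  have hg' := (mem_Gam I res n hres).mp hg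
  have h3 := pow_sub_one I n h2 (g : Matrix (Fin n) (Fin n) R) hg' m
  ext a b
  simp only [Matrix.GeneralLinearGroup.map_apply]
  rw [Units.val_pow_eq_pow_val]
  have h4 : q I m (((g : Matrix (Fin n) (Fin n) R) ^ (2 ^ m)) a b) =
      q I m ((1 : Matrix (Fin n) (Fin n) R) a b) := by
    rw [q_eq, ← Matrix.sub_apply]
    exact Ideal.pow_le_pow_right (Nat.le_succ m) (h3 a b)
  rw [h4]
  by_cases hab : a = b
  · subst hab; simp
  · simp [hab]

omit hres

lemma mem_HH (m : ℕ) {g : GL (Fin n) R} (h : g ∈ Gam res n) :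
    Matrix.GeneralLinearGroup.map (n := Fin n) (q I m) g ∈ HH I res n m := by
  unfold HH
  rw [Subgroup.mem_map]
  exact ⟨g, h, rfl⟩

/-- the image of an element of the congruence subgroup -/
def toHH (m : ℕ) (g : GL (Fin n) R) (h : g ∈ Gam res n) : HH I res n m :=
  ⟨_, mem_HH I res n m h⟩

lemma toHH_val (m : ℕ) (g : GL (Fin n) R) (h : g ∈ Gam res n) :
    (toHH I res n m g h : GL (Fin n) (RR R I m)) =
      Matrix.GeneralLinearGroup.map (n := Fin n) (q I m) g := rfl

lemma toHH_sq (m : ℕ) (g : GL (Fin n) R) (h : g ∈ Gam res n) (h2 : g * g = 1) :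
    toHH I res n m g h * toHH I res n m g h = 1 := by
  apply Subtype.ext
  rw [Subgroup.coe_mul, toHH_val, ← map_mul, h2, map_one]
  rfl

end group

/-- the general form -/
theorem lim {P : Type} [Group P] [TopologicalSpace P] [IsTopologicalGroup P]
    {ι : Type} (c : ι → P) (σ : P) (hTop : TopGen c σ) (hAss : Assign c σ)
    {R k : Type} [CommRing R] [Field k] (I : Ideal R) (res : R →+* k) (n : ℕ)
    (hres : ∀ x, res x = 0 ↔ x ∈ I) (hH : IsHausdorff I R) (hC : IsPrecomplete I R)
    (h2 : (2 : R) ∈ I) (hfin : ∀ m, Finite (RR R I m))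
    (t : ι → GL (Fin n) R) (u : GL (Fin n) R) (ht2 : ∀ i, t i * t i = 1)
    (ht1 : ∀ i, Matrix.GeneralLinearGroup.map res (t i) = 1)
    (hu1 : Matrix.GeneralLinearGroup.map res u = 1) :
    ∃ ψ : P →* GL (Fin n) R,
      (∀ g, Matrix.GeneralLinearGroup.map res (ψ g) = 1) ∧
      (∀ m : ℕ, IsOpen {g : P | ∀ a b : Fin n,
        ((ψ g : Matrix (Fin n) (Fin n) R) - 1) a b ∈ I ^ m}) ∧
      (∀ i, ψ (c i) = t i) ∧ ψ σ = u := by
  have htΓ : ∀ i, t i ∈ Gam res n := fun i => MonoidHom.mem_ker.mpr (ht1 i)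
  have huΓ : u ∈ Gam res n := MonoidHom.mem_ker.mpr hu1
  -- the maps to the finite levels
  have hex : ∀ m : ℕ, ∃ Ψ : P →* GL (Fin n) (RR R I m), IsOpen (Ψ.ker : Set P) ∧
      (∀ i, Ψ (c i) = Matrix.GeneralLinearGroup.map (q I m) (t i)) ∧
      Ψ σ = Matrix.GeneralLinearGroup.map (q I m) u ∧
      ∀ g, Ψ g ∈ HH I res n m := by
    intro m
    have := hfin m
    have hfGL : Finite (GL (Fin n) (RR R I m)) := inferInstance
    have hfH : Finite (HH I res n m) := inferInstance
    have hcard : ∃ e : ℕ, Nat.card (HH I res n m) = 2 ^ e := by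
      have : Fact (Nat.Prime 2) := ⟨Nat.prime_two⟩
      exact (IsPGroup.iff_card).mp (pgroup I res n hres h2 m)
    obtain ⟨ψ, hψ1, hψ2, hψ3⟩ := hAss (HH I res n m) hcard
      (fun i => toHH I res n m (t i) (htΓ i)) (toHH I res n m u huΓ)
      (fun i => toHH_sq I res n m (t i) (htΓ i) (ht2 i))
    refine ⟨(HH I res n m).subtype.comp ψ, ?_, ?_, ?_, fun g => (ψ g).2⟩
    · have e : ((HH I res n m).subtype.comp ψ).ker = ψ.ker := by
        ext g
        simp [MonoidHom.mem_ker]
      rw [e]
      exact hψ1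
    · intro i
      rw [← toHH_val I res n m (t i) (htΓ i), ← hψ2 i]
      rfl
    · rw [← toHH_val I res n m u huΓ, ← hψ3]
      rfl
  choose Ψ hΨo hΨc hΨσ hΨH using hex
  -- compatibility
  have hcomp : ∀ m m' : ℕ, ∀ h : m ≤ m', ∀ g : P,
      Matrix.GeneralLinearGroup.map (pi h) (Ψ m' g) = Ψ m g := by
    intro m m' h g
    have h1 : ((Matrix.GeneralLinearGroup.map (n := Fin n) (pi h)).comp (Ψ m')).eqLocus (Ψ m) =
        ⊤ := by
      apply hTop
      · apply Subgroup.isOpen_mono (H₁ := (Ψ m').ker ⊓ (Ψ m).ker)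
        · rintro x ⟨hx1, hx2⟩
          show Matrix.GeneralLinearGroup.map (pi h) (Ψ m' x) = Ψ m x
          rw [MonoidHom.mem_ker.mp hx1, MonoidHom.mem_ker.mp hx2, map_one]
        · exact (hΨo m').inter (hΨo m)
      · intro i
        show Matrix.GeneralLinearGroup.map (pi h) (Ψ m' (c i)) = Ψ m (c i)
        rw [hΨc, hΨc]
        ext a b
        rfl
      · show Matrix.GeneralLinearGroup.map (pi h) (Ψ m' σ) = Ψ m σ
        rw [hΨσ, hΨσ]
        ext a b
        rfl
    have h2 : g ∈ ((Matrix.GeneralLinearGroup.map (n := Fin n) (pi h)).comp (Ψ m')).eqLocus (Ψ m) := by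
      rw [h1]
      exact Subgroup.mem_top g
    exact h2
  -- the limit
  let lift : (m : ℕ) → RR R I m → R := fun m => Function.surjInv (q_surj (I := I) m)
  have hlift : ∀ (m : ℕ) (r : RR R I m), q I m (lift m r) = r := fun m r =>
    Function.surjInv_eq (q_surj (I := I) m) r
  have hL : ∀ (g : P) (a b : Fin n), ∃ L : R, ∀ m,
      q I m L = (Ψ m g : Matrix (Fin n) (Fin n) (RR R I m)) a b := by
    intro g a b
    obtain ⟨L, hL⟩ := hC.prec'
      (fun m => lift m ((Ψ m g : Matrix (Fin n) (Fin n) (RR R I m)) a b)) (by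
        intro m m' hm
        rw [SModEq.sub_mem, smul_eq_mul, Ideal.mul_top, ← q_eq, hlift, ← pi_q hm, hlift,
          ← hcomp m m' hm g]
        rfl)
    refine ⟨L, fun m => ?_⟩
    have h1 := hL m
    rw [SModEq.sub_mem, smul_eq_mul, Ideal.mul_top, ← q_eq, hlift] at h1
    exact h1.symm
  choose L hL using hL
  let M : P → Matrix (Fin n) (Fin n) R := fun g => Matrix.of fun a b => L g a b
  have hM : ∀ (m : ℕ) (g : P) (a b : Fin n),
      q I m (M g a b) = (Ψ m g : Matrix (Fin n) (Fin n) (RR R I m)) a b :=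
    fun m g a b => hL g a b m
  have hMext : ∀ A B : Matrix (Fin n) (Fin n) R,
      (∀ m, A.map (q I m) = B.map (q I m)) → A = B := by
    intro A B h
    ext1 a b
    apply ext_q hH
    intro m
    exact congrFun (congrFun (h m) a) b
  have hMmap : ∀ (m : ℕ) (g : P), (M g).map (q I m) =
      (Ψ m g : Matrix (Fin n) (Fin n) (RR R I m)) := by
    intro m g
    ext1 a b
    exact hM m g a b
  let Mh : P →* Matrix (Fin n) (Fin n) R :=
    { toFun := M
      map_one' := by
        apply hMext
        intro m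
        rw [hMmap, map_one]
        ext1 a b
        by_cases hab : a = b
        · subst hab; simp
        · simp [hab]
      map_mul' := by
        intro x y
        apply hMext
        intro m
        rw [hMmap, map_mul]
        have h1 : ((M x) * (M y)).map (q I m) = (M x).map (q I m) * (M y).map (q I m) :=
          Matrix.map_mul
        rw [h1, hMmap, hMmap]
        rfl }
  refine ⟨Mh.toHomUnits, ?_, ?_, ?_, ?_⟩
  · intro g
    obtain ⟨γ, hγ, hγ2⟩ := hΨH 1 g
    have h1 : Mh.toHomUnits g ∈ Gam res n := by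
      rw [mem_Gam I res n hres]
      intro a b
      have h2 := (mem_Gam I res n hres).mp hγ a b
      have h3 : q I 1 (M g a b) = q I 1 ((γ : Matrix (Fin n) (Fin n) R) a b) := by
        rw [hM, ← hγ2]
        rfl
      rw [q_eq, pow_one] at h3
      have h4 := I.add_mem h3 h2
      rw [Matrix.sub_apply] at h4
      show (M g - 1) a b ∈ I
      rw [Matrix.sub_apply]
      have e : M g a b - (γ : Matrix (Fin n) (Fin n) R) a b +
        ((γ : Matrix (Fin n) (Fin n) R) a b - (1 : Matrix (Fin n) (Fin n) R) a b) =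
          M g a b - (1 : Matrix (Fin n) (Fin n) R) a b := by ring
      rwa [e] at h4
    exact MonoidHom.mem_ker.mp h1
  · intro m
    have e : {g : P | ∀ a b : Fin n,
          ((Mh.toHomUnits g : Matrix (Fin n) (Fin n) R) - 1) a b ∈ I ^ m} =
          ((Ψ m).ker : Set P) := by
      ext g
      constructor
      · intro h
        rw [SetLike.mem_coe, MonoidHom.mem_ker]
        ext a b
        have h1 : q I m (M g a b) = q I m ((1 : Matrix (Fin n) (Fin n) R) a b) := by
          rw [q_eq]
          exact h a b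
        rw [hM] at h1
        rw [h1]
        by_cases hab : a = b
        · subst hab; simp
        · simp [hab]
      · intro h a b
        rw [SetLike.mem_coe, MonoidHom.mem_ker] at h
        have h1 : q I m (M g a b) = q I m ((1 : Matrix (Fin n) (Fin n) R) a b) := by
          rw [hM, h]
          by_cases hab : a = b
          · subst hab; simp
          · simp [hab]
        rw [q_eq] at h1
        exact h1
    rw [e]
    exact hΨo m
  · intro i
    apply Units.ext
    show M (c i) = _
    apply hMext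
    intro m
    rw [hMmap, hΨc]
    rfl
  · apply Units.ext
    show M σ = _
    apply hMext
    intro m
    rw [hMmap, hΨσ]
    rfl

theorem main : Pool.Agent.Helper24.GF.S_LIM := by
  intro P _ _ _ ι c σ hTop hAss k _ _ _ n A t u ht2 ht1 hu1
  have hker : RingHom.ker A.res = maximalIdeal A.A :=
    IsLocalRing.eq_maximalIdeal (RingHom.ker_isMaximal_of_surjective A.res A.res_surj)
  have hres : ∀ x, A.res x = 0 ↔ x ∈ maximalIdeal A.A := by
    intro x
    rw [← hker, RingHom.mem_ker]
  have h2 : (2 : A.A) ∈ maximalIdeal A.A := by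
    rw [← hres, map_ofNat]
    exact CharTwo.two_eq_zero
  have hf : Finite (A.A ⧸ maximalIdeal A.A) := by
    rw [← hker]
    exact Finite.of_injective _ (RingHom.kerLift_injective A.res)
  exact lim c σ hTop hAss (maximalIdeal A.A) A.res n hres A.complete.toIsHausdorff
    A.complete.toIsPrecomplete h2 (fun m => finite_RR m) t u ht2 ht1 hu1

end Pool.Agent.Helper24.GF.LIM

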