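import Pool.Agent.Helper24.GF.Ext2
import Pool.Agent.Helper24.GF.DIM
import Pool.Agent.Helper24.GF.LIM
import Pool.Agent.Helper24.GF.EXT
import Pool.Agent.Helper24.GF.BRW
import Pool.Agent.Helper24.GF.KLV
import Pool.Agent.Helper24.GF.KLM
import Pool.Agent.Helper24.GF.KAP
import Pool.Agent.Helper24.GF.LFT
import Pool.Agent.Helper24.GF.FIN
import Pool.Agent.Helper24.GF.INT

/-! # The modules put together -/

set_option autoImplicit false

namespace Pool.Agent.Helper24.GF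

open NumberField IsDedekindDomain MZ Pool.Agent.Helper24.BC Pool.Agent.Helper24.BC.X

theorem kap : S_KAP := KAP.main KLV.main KLM.main BRW.main

theorem lft2 : S_LFT := LFT.main LIM.main EXT.main DIM.main BRW.main

theorem layerF (m : ℕ) : type_of% (layer2 lft2 kap m) := layer2 lft2 kap m

theorem overFF {F₀ : Type} [Field F₀] [NumberField F₀] [Algebra F₀ Om] [IsAlgClosure F₀ Om]
    [Algebra F5 F₀]
    {k : Type} [Field k] [Finite k] [CharP k 2] (ρ : GFS Om (abv F₀ S30) →* GL (Fin 3) k)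
    (ho : IsOpen (ρ.ker : Set (GFS Om (abv F₀ S30)))) (hirr : AbsIrred ρ)
    (h27 : ∀ g, ρ g ^ 27 = 1) (D : WithBot ℕ∞)
    (hN : ∀ (R : CNL 2 k) (ρu : GFS Om (abv F₀ S30) →* GL (Fin 3) R.A), IsUniversal ρ R ρu →
      Bd D R.A)
    {F : Type} [Field F] [NumberField F] [Algebra F₀ F] [Algebra F Om] [IsScalarTower F₀ F Om]
    (hT : ∀ M : Subgroup ρ.range, M.index = 3 → IsEmpty (NO ρ M →+* F))
    (S' : Set (HeightOneSpectrum (𝓞 F))) (hSf : S'.Finite)
    (h30 : ∀ v : HeightOneSpectrum (𝓞 F), (30 : 𝓞 F) ∈ v.asIdeal → v ∈ S') :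
    ∃ (ρ' : GFS Om S' →* GL (Fin 3) k) (w : InfinitePlace F →
        InfinitePlace (FSmax S' : IntermediateField F Om)),
      IsDatum F Om S' 2 k 3 ρ' w ∧
      delta S' ρ' w = 1 + 9 * InfinitePlace.nrComplexPlaces F ∧
      (∃ (R : CNL 2 k) (ρu : GFS Om S' →* GL (Fin 3) R.A), IsUniversal ρ' R ρu) ∧
      ∀ (R : CNL 2 k) (ρu : GFS Om S' →* GL (Fin 3) R.A), IsUniversal ρ' R ρu →
        D ≤ ringKrullDim (R.A ⧸ Ideal.span {((2 : ℕ) : R.A)}) ∧
        D ≤ ringKrullDim (Localization.Away ((2 : ℕ) : R.A)) :=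
  overF2 FIN.main INT.main ρ ho hirr h27 D hN hT S' hSf h30

end Pool.Agent.Helper24.GF
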