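import Pool.Agent.Helper24.GF.Stm
import Pool.Agent.Helper24.BC.Gen

/-!
# Restriction of deformations does not lower the dimension of the generic fibre
-/

set_option autoImplicit false

namespace Pool.Agent.Helper24.GF

open IsLocalRing MZ MZEX Matrix Topology Pool.Agent.Y808.MZD Pool.Agent.Helper24.BC

variable {k : Type} [Field k] [Finite k] [CharP k 2]
variable {G H : Type} [Group G] [TopologicalSpace G] [IsTopologicalGroup G]
  [Group H] [TopologicalSpace H] [IsTopologicalGroup H] {n : ℕ}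

/-- **Restriction does not lower the dimension of the generic fibre.** -/
theorem away_restrict (hFIN : S_FIN) (hINT : S_INT) (hn : 1 ≤ n) (φ : H →* G) (hφ : Continuous φ)
    (hfi : φ.range.FiniteIndex)
    (ρbar : G →* GL (Fin n) k) (hirr : AbsIrred (ρbar.comp φ))
    (R : CNL 2 k) (ρu : G →* GL (Fin n) R.A) (hu : IsUniversal ρbar R ρu)
    (R' : CNL 2 k) (ρu' : H →* GL (Fin n) R'.A) (hu' : IsUniversal (ρbar.comp φ) R' ρu') :
    ringKrullDim (Localization.Away ((2 : ℕ) : R.A)) ≤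
      ringKrullDim (Localization.Away ((2 : ℕ) : R'.A)) := by
  have hinf : IsLift (ρbar.comp φ) R (ρu.comp φ) :=
    ⟨fun g => hu.1.1 (φ g), fun j => (hu.1.2 j).preimage hφ⟩
  obtain ⟨f, ⟨hf1, hf2⟩, -⟩ := hu'.2 R (ρu.comp φ) hinf
  have hloc : ∀ x ∈ maximalIdeal R'.A, (f : R'.A →+* R.A) x ∈ maximalIdeal R.A := by
    intro x hx
    rw [mem_max_iff]
    show R.res (f x) = 0
    rw [hf1, ← mem_max_iff]
    exact hx
  have hfin : (f : R'.A →+* R.A).Finite := hFIN k R' R (f : R'.A →+* R.A) hloc fun P hP hPf =>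
    prime_eq hn φ hφ hfi ρbar hirr R ρu hu R' ρu' f hf1 hu'.1 hf2 P hP hPf
  exact hINT R'.A R.A (f : R'.A →+* R.A) _ _ (map_natCast _ 2) hfin

end Pool.Agent.Helper24.GF
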