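import Pool.Agent.Helper15.MD.Stm
import Pool.Graph.R_seed8.W505.MZ.ExW
import Pool.Graph.R_seed8.W21.MZ.ExA

/-!
# Mazur's dimension conjecture: the generic fibre. Statements of the modules.

`W = W(k)` is the ring of Witt vectors. The universal ring `R` is mapped to `W[[x]]`; the image of the
involutions is `1 - 2 e` with an idempotent matrix `e` of rank one with four parameters. The chain of
the primes `(x_1, ..., x_r)` of `W[[x]]`, none of which contains `2`, gives a chain in `R[1/2]`.
All modules are variants of the files `Pool/Agent/Helper15/MD/*.lean` (on origin/main).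
-/

set_option autoImplicit false

namespace Pool.Agent.Helper24.GF

open NumberField IsDedekindDomain IsLocalRing MZ Pool.Agent.Helper15.MD

/-- the ring of power series over `W(k)` in the variables `τ` -/
noncomputable def MW (k : Type) [Field k] [Finite k] [CharP k 2] (τ : Type) [Finite τ] : CNL 2 k where
  A := MvPowerSeries τ (WittVector 2 k)
  complete := by
    have hk : IsAdicComplete (maximalIdeal (WittVector 2 k)) (WittVector 2 k) := by
      obtain ⟨_, _, w3, _⟩ := Pool.Agent.W505.MZ.ExW.main 2 k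
      exact w3
    exact (Pool.Agent.W21.MZ.exA (WittVector 2 k) τ).1
  alg := (MvPowerSeries.C (σ := τ) (R := WittVector 2 k)).toAlgebra
  res := (WittVector.constantCoeff : WittVector 2 k →+* k).comp MvPowerSeries.constantCoeff
  res_surj := fun c => ⟨MvPowerSeries.C (WittVector.teichmuller 2 c), by
    rw [RingHom.comp_apply, MvPowerSeries.constantCoeff_C]
    exact WittVector.teichmuller_coeff_zero 2 c⟩
  res_coeff := fun x => by
    show (WittVector.constantCoeff : WittVector 2 k →+* k)
      (MvPowerSeries.constantCoeff (MvPowerSeries.C x)) = _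
    rw [MvPowerSeries.constantCoeff_C]
    rfl

/-- the power series over `W` in which every monomial involves a variable `s` with `o s < r` -/
def QW (W : Type) [CommRing W] {τ : Type} (o : τ → ℕ) (r : ℕ) : Set (MvPowerSeries τ W) :=
  {f | ∀ n : τ →₀ ℕ, (∀ s, o s < r → n s = 0) → MvPowerSeries.coeff n f = 0}

/-- the linear combination with the coefficients `w` of the traces of `ρ` minus constants -/
noncomputable def TrW {G W τ : Type} [Group G] [CommRing W] {n : ℕ}
    (ρ : G →* GL (Fin n) (MvPowerSeries τ W)) (c : G → W) (w : G →₀ W) : MvPowerSeries τ W :=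
  w.sum fun g x => MvPowerSeries.C x *
    ((ρ g : Matrix (Fin n) (Fin n) (MvPowerSeries τ W)).trace - MvPowerSeries.C (c g))

/-! ### Module DIM (variant of MD/DIM.lean) -/

/-- DIM: the Krull dimension of `R[1/2]` is at least `N` if there is a lift to power series over
`W(k)` for which the traces give a chain of length `N`. Proof: as in MD/DIM.lean, `kill` for the
domain `W(k)` in place of `k`; `F` maps `algebraMap w` to `C w` now; the primes are
`Q r = ker (kill ∘ F)` in `R`, they do not contain `2` (`2 ≠ 0` in the domain `W(k)[[..]]`), so they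
give a chain in `Localization.Away 2` (`IsLocalization.isPrime_of_isPrime_disjoint`,
`IsLocalization.comap_map_of_isPrime_disjoint`). -/
def S_DIM : Prop :=
  ∀ (k : Type) [Field k] [Finite k] [CharP k 2] (G : Type) [Group G] [TopologicalSpace G]
    [IsTopologicalGroup G] (n : ℕ) (ρbar : G →* GL (Fin n) k) (τ : Type) [Finite τ] (o : τ → ℕ)
    (N : ℕ) (ρ : G →* GL (Fin n) (MW k τ).A), IsLift ρbar (MW k τ) ρ →
    (∀ r < N, ∃ (c : G → WittVector 2 k) (w : G →₀ WittVector 2 k),
      TrW ρ c w ∈ QW (WittVector 2 k) o (r + 1) ∧ TrW ρ c w ∉ QW (WittVector 2 k) o r) →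
    ∀ (R : CNL 2 k) (ρu : G →* GL (Fin n) R.A), IsUniversal ρbar R ρu →
      ((N : ℕ) : WithBot ℕ∞) ≤ ringKrullDim (Localization.Away ((2 : ℕ) : R.A))

/-! ### Module LIM (variant of MD/LIM.lean) -/

/-- LIM: from finite 2-groups to `GL_n(A)`, without the hypothesis `2 = 0` of MD/LIM.lean (there it
is used only in `pgroup`; now `2 ∈ m_A`, and `g ≡ 1 mod I` gives `g ^ (2 ^ m) ≡ 1 mod I ^ (m + 1)` by
induction: `(1 + X) ^ 2 = 1 + 2 X + X ^ 2`). -/
def S_LIM : Prop :=
  ∀ (P : Type) [Group P] [TopologicalSpace P] [IsTopologicalGroup P]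
    (ι : Type) (c : ι → P) (σ : P), TopGen c σ → Assign c σ →
    ∀ (k : Type) [Field k] [Finite k] [CharP k 2] (n : ℕ) (A : CNL 2 k),
    ∀ (t : ι → GL (Fin n) A.A) (u : GL (Fin n) A.A),
      (∀ i, t i * t i = 1) →
      (∀ i, Matrix.GeneralLinearGroup.map A.res (t i) = 1) →
      Matrix.GeneralLinearGroup.map A.res u = 1 →
      ∃ ψ : P →* GL (Fin n) A.A,
        (∀ g, Matrix.GeneralLinearGroup.map A.res (ψ g) = 1) ∧ Cont A ψ ∧
        (∀ i, ψ (c i) = t i) ∧ ψ σ = u

/-! ### Module EXT (variant of MD/EXT.lean) -/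

/-- EXT: the extension of `ψ` to the big group; `K : 𝒢 → GL_n(A)` takes the place of the constant
matrices `CM n C (ρbar g)` of MD/EXT.lean. It is scalar on the preimage of `P`. -/
def S_EXT : Prop :=
  ∀ (P G 𝒢 V ι : Type) [Group P] [TopologicalSpace P] [IsTopologicalGroup P]
    [Group G] [TopologicalSpace G] [IsTopologicalGroup G]
    [Group 𝒢] [TopologicalSpace 𝒢] [IsTopologicalGroup 𝒢] (D : GD P G 𝒢 V ι)
    (k : Type) [Field k] [CharP k 2] (n : ℕ) (A : CNL 2 k)
    (ρbar : 𝒢 →* GL (Fin n) k), IsOpen (ρbar.ker : Set 𝒢) →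
    ∀ K : 𝒢 →* GL (Fin n) A.A, (∀ g, Matrix.GeneralLinearGroup.map A.res (K g) = ρbar g) →
    (∀ g, ρbar g = 1 → K g = 1) →
    (∀ g, D.res g ∈ D.j.range → ∃ a : A.A, (K g : Matrix (Fin n) (Fin n) A.A) = a • 1) →
    ∀ (t : ι → GL (Fin n) A.A) (u : GL (Fin n) A.A),
      (∀ g : 𝒢, D.res g ∈ D.A → ∀ i, t (D.π (D.res g) i) = K g * t i * (K g)⁻¹) →
      (∀ g : 𝒢, K g * u * (K g)⁻¹ = u) →
    ∀ ψ : P →* GL (Fin n) A.A, (∀ g, Matrix.GeneralLinearGroup.map A.res (ψ g) = 1) → Cont A ψ →
      (∀ i, ψ (D.c i) = t i) → ψ D.σ = u →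
      ∃ ρ : 𝒢 →* GL (Fin n) A.A, IsLift ρbar A ρ ∧
        ∀ (g : 𝒢) (q : P), ∀ b ∈ D.A, D.res g = D.j q * b → ρ g = ψ q * K g

/-! ### Module BRW -/

/-- BRW (Burnside over `W(k)`): a lift of an absolutely irreducible representation spans `M_n(W)`.
Proof: MD.BUR.main for `ρbar` and the lemma of Nakayama (`m_W = {x | x.coeff 0 = 0}`, the library's
`Pool.Agent.W505.MZ.ExW.main`). -/
def S_BRW : Prop :=
  ∀ (k : Type) [Field k] [Finite k] [CharP k 2] (G : Type) [Group G] (n : ℕ)
    (ρbar : G →* GL (Fin n) k), 1 ≤ n → AbsIrred ρbar →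
    ∀ K : G →* GL (Fin n) (WittVector 2 k),
      (∀ g, Matrix.GeneralLinearGroup.map (WittVector.constantCoeff : WittVector 2 k →+* k) (K g) =
        ρbar g) →
      Submodule.span (WittVector 2 k)
        (Set.range fun g => (K g : Matrix (Fin n) (Fin n) (WittVector 2 k))) = ⊤

/-! ### Modules KLV, KLM, KAP: the constant lift -/

/-- KLV (Schur-Zassenhaus): a representation of a finite group of odd order over `k` lifts to
`R / I ^ (m + 1)`. Proof: `E = {(h, g) ∈ H × GL_n(R / I^(m+1)) : g ↦ α h}` maps onto `H` (surjective: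
lift the entries of the matrix, the determinant is a unit modulo `I`, hence modulo `I ^ (m + 1)`),
the kernel is a finite 2-group (`g ^ (2 ^ m) = 1` for `g ≡ 1 mod I`, compare MD.LIM `pgroup`, with
`2 ∈ I` in place of `2 = 0`), of order prime to the index, so it has a complement
(`Subgroup.exists_right_complement'_of_coprime`). -/
def S_KLV : Prop :=
  ∀ (R k : Type) [CommRing R] [Field k] (I : Ideal R) (res : R →+* k),
    Function.Surjective res → (∀ x, res x = 0 ↔ x ∈ I) → (2 : R) ∈ I →
    (∀ m : ℕ, Finite (R ⧸ I ^ m)) →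
    ∀ (H : Type) [Group H] [Finite H], ¬ 2 ∣ Nat.card H → ∀ (n : ℕ) (α : H →* GL (Fin n) k) (m : ℕ),
      ∃ β : H →* GL (Fin n) (R ⧸ I ^ (m + 1)), ∀ (h : H) (i j : Fin n) (x : R),
        Ideal.Quotient.mk (I ^ (m + 1)) x =
          (β h : Matrix (Fin n) (Fin n) (R ⧸ I ^ (m + 1))) i j →
        res x = (α h : Matrix (Fin n) (Fin n) k) i j

/-- KLM: the inverse limit. Proof: the sets of the lifts `β` modulo `I ^ (m + 1)` are finite and not
empty, `nonempty_sections_of_finite_inverse_system` (or by hand) gives a compatible system, its limit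
is the wanted homomorphism (the end of `MD.LIM.lim`). -/
def S_KLM : Prop :=
  ∀ (R k : Type) [CommRing R] [Field k] (I : Ideal R) (res : R →+* k),
    Function.Surjective res → (∀ x, res x = 0 ↔ x ∈ I) → IsHausdorff I R → IsPrecomplete I R →
    (∀ m : ℕ, Finite (R ⧸ I ^ m)) →
    ∀ (H : Type) [Group H] [Finite H] (n : ℕ) (α : H →* GL (Fin n) k),
      (∀ m : ℕ, ∃ β : H →* GL (Fin n) (R ⧸ I ^ (m + 1)), ∀ (h : H) (i j : Fin n) (x : R),
        Ideal.Quotient.mk (I ^ (m + 1)) x =
          (β h : Matrix (Fin n) (Fin n) (R ⧸ I ^ (m + 1))) i j →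
        res x = (α h : Matrix (Fin n) (Fin n) k) i j) →
      ∃ β : H →* GL (Fin n) R, ∀ h, Matrix.GeneralLinearGroup.map res (β h) = α h

/-- KAP: the constant lift of `ρbar`. Proof: KLV and KLM for `H = ρbar.range`, a finite 3-group;
`K = β ∘ ρbar`. If `ρbar g` is scalar, then it is central in `H`, `K g` commutes with the image of `K`,
which spans `M_3(W)` (BRW), so `K g` is scalar. -/
def S_KAP : Prop :=
  ∀ (k : Type) [Field k] [Finite k] [CharP k 2] (G : Type) [Group G]
    (ρbar : G →* GL (Fin 3) k), (∀ g, ρbar g ^ 27 = 1) → AbsIrred ρbar →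
    ∃ K : G →* GL (Fin 3) (WittVector 2 k),
      (∀ g, Matrix.GeneralLinearGroup.map (WittVector.constantCoeff : WittVector 2 k →+* k) (K g) =
        ρbar g) ∧
      (∀ g, ρbar g = 1 → K g = 1) ∧
      ∀ g, (∃ a : k, (ρbar g : Matrix (Fin 3) (Fin 3) k) = a • 1) →
        ∃ b : WittVector 2 k, (K g : Matrix (Fin 3) (Fin 3) (WittVector 2 k)) = b • 1

/-! ### Module LFT (variant of MD/LFT.lean) -/

/-- LFT: the lower bound of the dimension of `R[1/2]` from the data. Variant of MD/LFT.lean, with
`K' g = map C (K g)` in place of `CM`, the trace constants `c g = trace (K g)`, and the involution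
`XM v = 1 - 2 E`, `E = (1, x0, x1)ᵀ (1 - x0 x2 - x1 x3, x2, x3)` (idempotent; `XM` is `1` modulo the
maximal ideal, since it contains `2`). The entries `(0,1)`, `(0,2)`, `(1,0)`, `(2,0)` of `-2 E`, that is
`-2 x2`, `-2 x3`, `-2 x0 (1 - x0 x2 - x1 x3)`, `-2 x1 (1 - x0 x2 - x1 x3)` are in `QW (r+1)` and not in
`QW r` (look at the coefficient of the monomial `x_i`: `-2 sc ≠ 0` in the domain `W(k)`). -/
def S_LFT : Prop :=
  ∀ (P G 𝒢 V ι : Type) [Group P] [TopologicalSpace P] [IsTopologicalGroup P]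
    [Group G] [TopologicalSpace G] [IsTopologicalGroup G]
    [Group 𝒢] [TopologicalSpace 𝒢] [IsTopologicalGroup 𝒢] [Fintype V] (D : GD P G 𝒢 V ι)
    (k : Type) [Field k] [Finite k] [CharP k 2] (ρbar : 𝒢 →* GL (Fin 3) k),
    IsOpen (ρbar.ker : Set 𝒢) → AbsIrred ρbar → Scal D ρbar →
    ∀ K : 𝒢 →* GL (Fin 3) (WittVector 2 k),
      (∀ g, Matrix.GeneralLinearGroup.map (WittVector.constantCoeff : WittVector 2 k →+* k) (K g) =
        ρbar g) →
      (∀ g, ρbar g = 1 → K g = 1) →
      (∀ g, (∃ a : k, (ρbar g : Matrix (Fin 3) (Fin 3) k) = a • 1) →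
        ∃ b : WittVector 2 k, (K g : Matrix (Fin 3) (Fin 3) (WittVector 2 k)) = b • 1) →
    ∀ (R : CNL 2 k) (ρu : 𝒢 →* GL (Fin 3) R.A), IsUniversal ρbar R ρu →
      ((4 * Fintype.card V + 1 : ℕ) : WithBot ℕ∞) ≤ ringKrullDim (Localization.Away ((2 : ℕ) : R.A))

/-! ### Modules FIN, INT: base change -/

/-- FIN: `B` is a finite `A`-module if the maximal ideal of `B` is the only prime ideal containing the
image of the maximal ideal `m_A`. Proof: `m_B ^ r ⊆ m_A B` (noetherian), so `B / m_A B` is finite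
(`B / m_B = k` is finite: `Ideal.finite_quotient_pow`); `A` is complete, `B` is Hausdorff for `m_A B`
(`⊆ m_B`), so a surjection `A ^ r → B / m_A B` lifts to a surjection `A ^ r → B`
(`surjective_of_mk_map_comp_surjective` or similar in Mathlib.RingTheory.AdicCompletion; otherwise the
direct series argument). -/
def S_FIN : Prop :=
  ∀ (k : Type) [Field k] [Finite k] [CharP k 2] (A B : CNL 2 k) (f : A.A →+* B.A),
    (∀ x ∈ maximalIdeal A.A, f x ∈ maximalIdeal B.A) →
    (∀ P : Ideal B.A, P.IsPrime → (∀ x ∈ maximalIdeal A.A, f x ∈ P) → P = maximalIdeal B.A) →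
    f.Finite

/-- INT: integral extensions and the dimension of the localizations (`f` need not be injective). Proof:
`P ↦ f⁻¹ P` is strictly monotone on the primes of `B` (incomparability), and the primes of
`Localization.Away x` are the primes which do not contain `x`. -/
def S_INT : Prop :=
  ∀ (A B : Type) [CommRing A] [CommRing B] (f : A →+* B) (a : A) (b : B), f a = b → f.Finite →
    ringKrullDim (Localization.Away b) ≤ ringKrullDim (Localization.Away a)

end Pool.Agent.Helper24.GF
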